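import Pool.Agent.Run7.h806.Min

set_option autoImplicit false

namespace Run7.h806

open Subgroup

universe u v

section dcc

variable {A : Type u} [CommGroup A]

/-- The layers used to detect a subgroup of a torsion group with finite socle. -/
def lay (w : ℕ) (H : Subgroup A) (n : ℕ) : Subgroup A :=
  (H.map (powMonoidHom (w ^ n))) ⊓ (powMonoidHom w : A →* A).ker

theorem lay_mono (w : ℕ) {H K : Subgroup A} (h : H ≤ K) (n : ℕ) : lay w H n ≤ lay w K n :=
  inf_le_inf_right _ (Subgroup.map_mono h)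

theorem lay_anti (w : ℕ) (H : Subgroup A) {m n : ℕ} (h : m ≤ n) : lay w H n ≤ lay w H m := by
  rintro a ⟨⟨b, hb, hba⟩, ha⟩
  refine ⟨⟨b ^ (w ^ (n - m)), H.pow_mem hb _, ?_⟩, ha⟩
  rw [← hba]
  simp only [powMonoidHom_apply]
  rw [← pow_mul, ← pow_add, Nat.sub_add_cancel h]

theorem eq_of_lay {w : ℕ} (ht : ∀ a : A, ∃ n, a ^ (w ^ n) = 1) {H K : Subgroup A} (hle : H ≤ K)
    (h : ∀ n, lay w H n = lay w K n) : H = K := by
  refine le_antisymm hle ?_
  have key : ∀ n : ℕ, ∀ a ∈ K, a ^ (w ^ n) = 1 → a ∈ H := by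
    intro n
    induction n with
    | zero => intro a _ ha; rw [pow_zero, pow_one] at ha; rw [ha]; exact H.one_mem
    | succ n ih =>
      intro a haK ha
      have h1 : a ^ (w ^ n) ∈ lay w K n := by
        refine ⟨⟨a, haK, rfl⟩, ?_⟩
        change (a ^ (w ^ n)) ^ w = 1
        rw [← pow_mul, ← pow_succ, ha]
      rw [← h n] at h1
      obtain ⟨⟨b, hb, hba⟩, -⟩ := h1
      rw [powMonoidHom_apply] at hba
      have h2 : a * b⁻¹ ∈ H := by
        refine ih _ (K.mul_mem haK (K.inv_mem (hle hb))) ?_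
        rw [mul_pow, inv_pow, hba, mul_inv_cancel]
      have := H.mul_mem h2 hb
      rwa [inv_mul_cancel_right] at this
  intro a ha
  obtain ⟨n, hn⟩ := ht a
  exact key n a ha hn

/-- A torsion abelian group with finite socle satisfies the minimal condition. -/
theorem dcc_of_socle {w : ℕ} (hf : {a : A | a ^ w = 1}.Finite)
    (ht : ∀ a : A, ∃ n, a ^ (w ^ n) = 1) : WellFoundedLT (Subgroup A) := by
  have hS : Finite (powMonoidHom w : A →* A).ker := hf
  -- the poset of subgroups below the socle is finite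
  have hfin : {S : Subgroup A | S ≤ (powMonoidHom w : A →* A).ker}.Finite := by
    have h1 : (Set.range (Subgroup.map (powMonoidHom w : A →* A).ker.subtype)).Finite :=
      Set.finite_range _
    refine h1.subset ?_
    intro S hS'
    refine ⟨S.subgroupOf _, ?_⟩
    rw [Subgroup.map_subgroupOf_eq_of_le hS']
  -- every antitone sequence in it stabilises
  have hstab : ∀ F : ℕ → Subgroup A, (∀ n, F n ≤ (powMonoidHom w : A →* A).ker) →
      (∀ m n, m ≤ n → F n ≤ F m) → ∃ n0, ∀ n, n0 ≤ n → F n = F n0 := by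
    intro F hF hanti
    have h1 : (Set.range F).Finite := hfin.subset (by rintro _ ⟨n, rfl⟩; exact hF n)
    obtain ⟨_, ⟨n0, rfl⟩, hmin⟩ := h1.exists_minimal ⟨F 0, ⟨0, rfl⟩⟩
    refine ⟨n0, fun n hn => ?_⟩
    exact le_antisymm (hanti _ _ hn) (hmin ⟨n, rfl⟩ (hanti _ _ hn))
  refine ⟨RelEmbedding.wellFounded_iff_isEmpty.mpr ⟨fun f => ?_⟩⟩
  let H : ℕ → Subgroup A := f
  have hH : ∀ i j, i < j → H j < H i := fun i j hij => f.map_rel_iff.mpr hij
  have hHle : ∀ i j, i ≤ j → H j ≤ H i := fun i j hij => by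
    rcases hij.eq_or_lt with rfl | h
    · exact le_rfl
    · exact (hH _ _ h).le
  have h1 : ∀ n, ∃ i0, ∀ i, i0 ≤ i → lay w (H i) n = lay w (H i0) n := fun n =>
    hstab (fun i => lay w (H i) n) (fun i => inf_le_right) (fun i j hij => lay_mono w (hHle i j hij) n)
  choose I hI using h1
  have hanti : ∀ m n, m ≤ n → lay w (H (I n)) n ≤ lay w (H (I m)) m := by
    intro m n hmn
    rw [← hI n (max (I m) (I n)) (le_max_right _ _), ← hI m (max (I m) (I n)) (le_max_left _ _)]
    exact lay_anti w _ hmn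
  obtain ⟨n0, hn0⟩ := hstab (fun n => lay w (H (I n)) n) (fun n => inf_le_right) hanti
  let i0 := (Finset.range (n0 + 1)).sup I
  have hi0 : ∀ n, n ≤ n0 → I n ≤ i0 := fun n hn =>
    Finset.le_sup (f := I) (Finset.mem_range.mpr (Nat.lt_succ_of_le hn))
  have hall : ∀ i, i0 ≤ i → ∀ n, lay w (H i) n = lay w (H (I n)) n := by
    intro i hi n
    rcases le_total n n0 with hn | hn
    · exact hI n i ((hi0 n hn).trans hi)
    · refine le_antisymm ?_ ?_
      · have h2 := hn0 n hn
        rw [h2, ← hI n0 i ((hi0 n0 le_rfl).trans hi)]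
        exact lay_anti w _ hn
      · rw [← hI n (max i (I n)) (le_max_right _ _)]
        exact lay_mono w (hHle _ _ (le_max_left _ _)) n
  have heq : H (i0 + 1) = H i0 := by
    refine eq_of_lay ht (hHle _ _ (Nat.le_succ _)) ?_
    intro n
    rw [hall _ (Nat.le_succ _) n, hall _ le_rfl n]
  exact absurd heq (hH _ _ (Nat.lt_succ_self _)).ne

end dcc

section abelian

variable {p : ℕ} {G : Type u} [Group G]

theorem coprime_of_pp (hp : p.Prime) {N : Subgroup G} (hNp : ∀ g ∈ N, PElt p g → g = 1) {l : G}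
    (hl : l ∈ N) (hlt : IsOfFinOrder l) (k : ℕ) : (p ^ k).Coprime (orderOf l) := by
  refine Nat.Coprime.pow_left k ?_
  rw [Nat.Prime.coprime_iff_not_dvd hp]
  rintro ⟨m, hm⟩
  have h0 : 0 < orderOf l := hlt.orderOf_pos
  have h1 : l ^ m = 1 := by
    refine hNp _ (N.pow_mem hl m) ⟨1, ?_⟩
    rw [pow_one, ← pow_mul, mul_comm, ← hm, pow_orderOf_eq_one]
  have hm0 : 0 < m := by
    rcases Nat.eq_zero_or_pos m with h | h
    · rw [h, mul_zero] at hm; omega
    · exact h
  have h2 := Nat.le_of_dvd hm0 (orderOf_dvd_of_pow_eq_one h1)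
  have := hp.two_le
  nlinarith

theorem mem_of_pow_mem_of_pp (hp : p.Prime) {N Y : Subgroup G}
    (hNp : ∀ g ∈ N, PElt p g → g = 1) {l : G} (hl : l ∈ N) (hlt : IsOfFinOrder l) (k : ℕ)
    (h : l ^ (p ^ k) ∈ Y) : l ∈ Y := by
  obtain ⟨m, hm⟩ := exists_pow_eq_self_of_coprime (coprime_of_pp hp hNp hl hlt k)
  rw [← hm]
  exact Y.pow_mem h m

theorem hom_trivial (hgen : PP p (⊤ : Subgroup G) = ⊤) {N : Subgroup G}
    (hNp : ∀ g ∈ N, PElt p g → g = 1) (f : G →* N) : f = 1 := by
  have h1 : (⊤ : Subgroup G) ≤ f.ker := by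
    rw [← hgen, PP, closure_le]
    rintro g ⟨-, hg⟩
    rw [SetLike.mem_coe, MonoidHom.mem_ker]
    exact Subtype.ext (hNp _ (f g).2 ((hg.map f).map N.subtype))
  ext g
  exact congrArg Subtype.val (h1 (Subgroup.mem_top g))

theorem index_ppow (hp : p.Prime) {N : Subgroup G} [N.Normal] (hf : N.FiniteIndex) {x : G}
    (hx : PElt p x) (h : N ⊔ zpowers x = ⊤) : ∃ k, N.index = p ^ k := by
  have : Fact p.Prime := ⟨hp⟩
  have h1 : IsPGroup p (G ⧸ N) := by
    intro q
    have h2 : (⊤ : Subgroup (G ⧸ N)) = zpowers (QuotientGroup.mk' N x) := by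
      rw [← Subgroup.map_top_of_surjective _ (QuotientGroup.mk'_surjective N), ← h,
        Subgroup.map_sup, MonoidHom.map_zpowers]
      have : N.map (QuotientGroup.mk' N) = ⊥ := by
        rw [Subgroup.map_eq_bot_iff, QuotientGroup.ker_mk']
      rw [this, bot_sup_eq]
    have h3 : q ∈ zpowers (QuotientGroup.mk' N x) := by rw [← h2]; trivial
    obtain ⟨i, rfl⟩ := h3
    exact (hx.map (QuotientGroup.mk' N)).zpow i
  obtain ⟨k, hk⟩ := IsPGroup.iff_card.mp h1
  exact ⟨k, hk⟩

theorem fix_trivial (hp : p.Prime) (hgen : PP p (⊤ : Subgroup G) = ⊤) {N : Subgroup G} [N.Normal]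
    (hf : N.FiniteIndex) (hNp : ∀ g ∈ N, PElt p g → g = 1)
    (hc : ∀ a ∈ N, ∀ b ∈ N, a * b = b * a) {x : G} (hx : PElt p x) (h : N ⊔ zpowers x = ⊤) {c : G}
    (hcN : c ∈ N) (hxc : x * c = c * x) : c = 1 := by
  let j : CommGroup N := { (inferInstance : Group N) with
      mul_comm := fun a b => Subtype.ext (hc _ a.2 _ b.2) }
  have hcen : ∀ g : G, g * c = c * g := by
    have h1 : (⊤ : Subgroup G) ≤ Subgroup.centralizer {c} := by
      rw [← h]
      refine sup_le ?_ ?_
      · intro n hn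
        rw [Subgroup.mem_centralizer_singleton_iff]
        exact hc n hn c hcN
      · rw [zpowers_le, Subgroup.mem_centralizer_singleton_iff]
        exact hxc
    intro g
    exact Subgroup.mem_centralizer_singleton_iff.mp (h1 (Subgroup.mem_top g))
  have h1 := MonoidHom.transfer_eq_pow (MonoidHom.id N) c (by
    intro k g hg
    have : Commute g (c ^ k) := (show Commute g c from hcen g).pow_right k
    rw [mul_assoc, ← this.eq, inv_mul_cancel_left])
  rw [hom_trivial hgen hNp (MonoidHom.transfer (MonoidHom.id N))] at h1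
  obtain ⟨k, hk⟩ := index_ppow hp hf hx h
  have h2 : c ^ N.index = 1 := (congrArg Subtype.val h1).symm
  exact hNp c hcN ⟨k, by rw [← hk]; exact h2⟩

theorem MinCE.vch_of_invariant {N : Subgroup G} (h : MinCE p G N) {L : Subgroup G} (hLN : L ≤ N)
    (hne : L ≠ N) {x : G} (hx : PElt p x) (hinv : ∀ l ∈ L, x * l * x⁻¹ ∈ L) :
    VCh (PP p (L ⊔ zpowers x)) := by
  refine h.mini _ (PP_idem _) ?_
  intro he
  apply hne
  refine le_antisymm hLN ?_
  have h1 : L ⊔ zpowers x = ⊤ := by rw [eq_top_iff, ← he]; exact PP_le _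
  have h2 := le_of_sup_zpowers h.pp hLN (h.tors x) hx hinv
  rwa [h1, top_inf_eq] at h2

theorem comm_part (hp : p.Prime) (hgen : PP p (⊤ : Subgroup G) = ⊤)
    (ht : ∀ g : G, IsOfFinOrder g) {N : Subgroup G} [hN : N.Normal]
    (hf : N.FiniteIndex) (hNp : ∀ g ∈ N, PElt p g → g = 1)
    (hc : ∀ a ∈ N, ∀ b ∈ N, a * b = b * a) {x : G} (hx : PElt p x) (h : N ⊔ zpowers x = ⊤)
    {L : Subgroup G} (hLN : L ≤ N) : L ≤ PP p (L ⊔ zpowers x) := by
  let j : CommGroup N := { (inferInstance : Group N) with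
      mul_comm := fun a b => Subtype.ext (hc _ a.2 _ b.2) }
  intro l hl
  obtain ⟨k, hk⟩ := id hx
  refine mem_of_pow_mem_of_pp hp hNp (hLN hl) (ht l) k ?_
  set m := p ^ k with hm
  let al : ℕ → N := fun i => ⟨x ^ i * l * (x ^ i)⁻¹, hN.conj_mem l (hLN hl) _⟩
  let S : N := ∏ i ∈ Finset.range m, al i
  have hS : x * (S : G) * x⁻¹ = S := by
    have h1 : (MulAut.conjNormal x : MulAut N) S = ∏ i ∈ Finset.range m, al (i + 1) := by
      rw [map_prod]
      refine Finset.prod_congr rfl fun i _ => ?_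
      ext
      rw [MulAut.conjNormal_apply]
      change x * (x ^ i * l * (x ^ i)⁻¹) * x⁻¹ = x ^ (i + 1) * l * (x ^ (i + 1))⁻¹
      rw [pow_succ']
      group
    have h2 : ∏ i ∈ Finset.range m, al (i + 1) = S := by
      have h3 := Finset.prod_range_succ al m
      have h4 := Finset.prod_range_succ' al m
      have h5 : al m = al 0 := by
        ext
        change x ^ m * l * (x ^ m)⁻¹ = x ^ 0 * l * (x ^ 0)⁻¹
        rw [hk, pow_zero]
      rw [h3, h5] at h4
      exact (mul_right_cancel h4).symm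
    have h6 := congrArg Subtype.val (h1.trans h2)
    rwa [MulAut.conjNormal_apply] at h6
  have hS1 : (S : G) = 1 := by
    refine fix_trivial hp hgen hf hNp hc hx h S.2 ?_
    have := congrArg (fun t => t * x) hS
    simpa using this
  have hS2 : S = 1 := Subtype.ext hS1
  have hprod : (⟨l, hLN hl⟩ : N) ^ m = ∏ i ∈ Finset.range m, (⟨l, hLN hl⟩ * (al i)⁻¹) := by
    rw [Finset.prod_mul_distrib, Finset.prod_const, Finset.card_range, Finset.prod_inv_distrib]
    change _ = _ * S⁻¹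
    rw [hS2, inv_one, mul_one]
  have hmem : (⟨l, hLN hl⟩ : N) ^ m ∈ (PP p (L ⊔ zpowers x)).subgroupOf N := by
    rw [hprod]
    refine Subgroup.prod_mem _ fun i _ => ?_
    rw [Subgroup.mem_subgroupOf]
    change l * (x ^ i * l * (x ^ i)⁻¹)⁻¹ ∈ PP p (L ⊔ zpowers x)
    have h1 : l * (x ^ i * l * (x ^ i)⁻¹)⁻¹ = (l * x ^ i * l⁻¹) * (x ^ i)⁻¹ := by group
    rw [h1]
    have hl' : l ∈ L ⊔ zpowers x := (le_sup_left : L ≤ L ⊔ zpowers x) hl
    have hx' : x ^ i ∈ L ⊔ zpowers x :=
      (L ⊔ zpowers x).pow_mem ((le_sup_right : zpowers x ≤ L ⊔ zpowers x) (mem_zpowers x)) i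
    exact Subgroup.mul_mem _ (mem_PP (Subgroup.mul_mem _ (Subgroup.mul_mem _ hl' hx')
      (Subgroup.inv_mem _ hl')) ((hx.pow i).conj l))
      (Subgroup.inv_mem _ (mem_PP hx' (hx.pow i)))
  exact hmem

theorem MinCE.ne_bot {N : Subgroup G} (h : MinCE p G N) : N ≠ ⊥ := by
  rintro rfl
  apply h.nch
  have h1 := h.fi
  have h2 : Finite G := by
    have : Finite (G ⧸ (⊥ : Subgroup G)) := inferInstance
    exact Finite.of_equiv _ (QuotientGroup.quotientBot (G := G)).toEquiv
  exact VCh.of_finite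

theorem MinCE.not_comm {N : Subgroup G} (hp : p.Prime) (h : MinCE p G N) :
    ¬ ∀ a ∈ N, ∀ b ∈ N, a * b = b * a := by
  intro hc
  have hN := h.nrm
  have hfp := h.fperf hp
  obtain ⟨x, hx, hxN⟩ := h.exists_gen hp N h.fi h.pp
  let j : CommGroup N := { (inferInstance : Group N) with
      mul_comm := fun a b => Subtype.ext (hc _ a.2 _ b.2) }
  have hV : ∀ L : Subgroup G, L ≤ N → L ≠ N → (∀ l ∈ L, x * l * x⁻¹ ∈ L) → VCh L :=
    fun L h1 h2 h3 => (h.vch_of_invariant h1 h2 hx h3).of_le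
      (comm_part hp h.gen h.tors h.fi h.pp hc hx hxN h1)
  have htor : ∀ w : ℕ, 0 < w → {a : N | a ^ w = 1}.Finite := by
    intro w hw
    have h1 : VCh (tor N hc w) := by
      refine hV _ (fun a ha => ha.1) ?_ ?_
      · intro he
        have h2 := hfp.hom_exp w hw (MonoidHom.id N) (by
          rintro ⟨a, ha⟩
          rw [← he] at ha
          exact Subtype.ext ha.2)
        apply h.ne_bot
        rw [eq_bot_iff]
        intro a ha
        exact congrArg Subtype.val (DFunLike.congr_fun h2 ⟨a, ha⟩)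
      · intro l hl
        exact (tor_normal N hN hc w).conj_mem l hl x
    have h2 : Finite (tor N hc w) := by
      refine finite_of_exp' ?_ hw ?_ h1.dcc
      · rintro ⟨a, ha⟩ ⟨b, hb⟩
        exact Subtype.ext (hc a ha.1 b hb.1)
      · rintro ⟨a, ha⟩
        exact Subtype.ext ha.2
    have h3 : (Set.range (Subgroup.inclusion (fun a ha => ha.1 : tor N hc w ≤ N))).Finite :=
      Set.finite_range _
    refine h3.subset ?_
    rintro ⟨a, ha⟩ haw
    exact ⟨⟨a, ha, congrArg Subtype.val haw⟩, rfl⟩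
  -- a prime involved in `N`
  obtain ⟨a0, ha0, ha0'⟩ : ∃ a ∈ N, a ≠ 1 := by
    by_contra hcon
    apply h.ne_bot
    rw [eq_bot_iff]
    intro a ha
    by_contra hne
    exact hcon ⟨a, ha, hne⟩
  have ho0 : orderOf a0 ≠ 1 := fun he => ha0' (orderOf_eq_one_iff.mp he)
  obtain ⟨q0, hq0, m0, hm0⟩ := Nat.exists_prime_and_dvd ho0
  have hb : orderOf (a0 ^ m0) = q0 := by
    have hpos : 0 < orderOf a0 := (h.tors a0).orderOf_pos
    have hm0pos : m0 ≠ 0 := by
      rintro rfl
      rw [mul_zero] at hm0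
      omega
    rw [orderOf_pow' a0 hm0pos, hm0, Nat.gcd_eq_right (Dvd.intro_left _ rfl),
      Nat.mul_div_cancel _ (Nat.pos_of_ne_zero hm0pos)]
  let B : Subgroup G :=
    { carrier := {a | a ∈ N ∧ ∃ m : ℕ, m.Coprime q0 ∧ a ^ m = 1}
      one_mem' := ⟨N.one_mem, 1, Nat.coprime_one_left _, one_pow _⟩
      mul_mem' := by
        rintro a b ⟨haN, m, hm, ha⟩ ⟨hbN, k, hk, hb⟩
        refine ⟨N.mul_mem haN hbN, m * k, Nat.Coprime.mul_left hm hk, ?_⟩
        have : Commute a b := hc a haN b hbN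
        rw [this.mul_pow, pow_mul, ha, one_pow, mul_comm m k, pow_mul, hb, one_pow, one_mul]
      inv_mem' := by
        rintro a ⟨haN, m, hm, ha⟩
        exact ⟨N.inv_mem haN, m, hm, by rw [inv_pow, ha, inv_one]⟩ }
  have hBV : VCh B := by
    refine hV B (fun a ha => ha.1) ?_ ?_
    · intro he
      have h1 : a0 ^ m0 ∈ B := by rw [he]; exact N.pow_mem ha0 _
      obtain ⟨-, m, hm, h2⟩ := h1
      have h3 : q0 ∣ m := by rw [← hb]; exact orderOf_dvd_of_pow_eq_one h2
      exact hq0.one_lt.ne' (Nat.Coprime.eq_one_of_dvd hm.symm h3)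
    · rintro l ⟨hl, m, hm, hlm⟩
      exact ⟨hN.conj_mem l hl x, m, hm, by rw [conj_pow, hlm, mul_one, mul_inv_cancel]⟩
  have hsoc : {b : B | ∃ q : ℕ, q.Prime ∧ b ^ q = 1}.Finite := by
    let j2 : CommGroup B := { (inferInstance : Group B) with
      mul_comm := fun a b => Subtype.ext (hc _ a.2.1 _ b.2.1) }
    exact finite_socle (A := B) hBV.dcc
  let Pi : Set ℕ := {q | q.Prime ∧ ∃ a ∈ N, a ≠ 1 ∧ a ^ q = 1}
  have hPi : Pi.Finite := by
    refine ((Set.finite_singleton q0).union (hsoc.image orderOf)).subset ?_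
    rintro q ⟨hq, a, haN, ha1, haq⟩
    by_cases hqq : q = q0
    · left; exact hqq
    · right
      have h1 : a ∈ B := ⟨haN, q, (Nat.coprime_primes hq hq0).mpr hqq, haq⟩
      refine ⟨⟨a, h1⟩, ⟨q, hq, Subtype.ext haq⟩, ?_⟩
      have h2 : orderOf a = q := orderOf_eq_prime haq ha1 (hp := ⟨hq⟩)
      rw [← h2]
      exact orderOf_mk a h1
  let w : ℕ := ∏ q ∈ hPi.toFinset, q
  have hw : 0 < w := Finset.prod_pos fun q hq => ((hPi.mem_toFinset.mp hq).1).pos
  have hall : ∀ a : N, ∃ n, a ^ (w ^ n) = 1 := by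
    rintro ⟨a, ha⟩
    have hpos : 0 < orderOf a := (h.tors a).orderOf_pos
    obtain ⟨n, hn⟩ := (Nat.exists_dvd_pow_iff hpos.ne' hw.ne').mpr (show
      (orderOf a).primeFactors ⊆ w.primeFactors by
        intro q hq
        have hq' := Nat.prime_of_mem_primeFactors hq
        have hqd := Nat.dvd_of_mem_primeFactors hq
        refine Nat.mem_primeFactors.mpr ⟨hq', ?_, hw.ne'⟩
        have h1 : q ∈ Pi := by
          obtain ⟨m, hm⟩ := hqd
          refine ⟨hq', a ^ m, N.pow_mem ha m, ?_, ?_⟩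
          · intro he
            have h2 := orderOf_dvd_of_pow_eq_one he
            have hm1 : 0 < m := by
              rcases Nat.eq_zero_or_pos m with h3 | h3
              · rw [h3, mul_zero] at hm; omega
              · exact h3
            have h3 := Nat.le_of_dvd hm1 h2
            have := hq'.two_le
            nlinarith
          · rw [← pow_mul, mul_comm, ← hm, pow_orderOf_eq_one]
        exact Finset.dvd_prod_of_mem _ (hPi.mem_toFinset.mpr h1))
    exact ⟨n, Subtype.ext (orderOf_dvd_iff_pow_eq_one.mp hn)⟩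
  have hd : WellFoundedLT (Subgroup N) := dcc_of_socle (htor w hw) hall
  apply h.nch
  refine VCh.of_finiteIndex N h.fi ⟨⟨⊤, inferInstance, fun a _ b _ => mul_comm a b⟩, hd⟩

end abelian

end Run7.h806
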