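import Mathlib

set_option autoImplicit false

namespace Run7.h806

open Subgroup

universe u v

/-- No proper subgroup of finite index. -/
def FPerf (G : Type u) [Group G] : Prop := ∀ H : Subgroup G, H.FiniteIndex → H = ⊤

/-- Virtually abelian with the minimal condition on subgroups. -/
structure VCh (G : Type u) [Group G] : Prop where
  ab : ∃ A : Subgroup G, A.FiniteIndex ∧ ∀ a ∈ A, ∀ b ∈ A, a * b = b * a
  dcc : WellFoundedLT (Subgroup G)

section basic

variable {G : Type u} [Group G] {Q : Type v} [Group Q]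

theorem finiteIndex_comap (f : G →* Q) (A : Subgroup Q) (hA : A.FiniteIndex) :
    (A.comap f).FiniteIndex := by
  refine ⟨?_⟩
  rw [index_comap]
  intro h
  have := relIndex_eq_zero_of_le_right (le_top : f.range ≤ ⊤) h
  rw [relIndex_top_right] at this
  exact hA.index_ne_zero this

theorem finiteIndex_map_of_surjective (f : G →* Q) (hf : Function.Surjective f)
    (A : Subgroup G) (hA : A.FiniteIndex) : (A.map f).FiniteIndex := by
  refine ⟨?_⟩
  rw [index_map, MonoidHom.range_eq_top.mpr hf, index_top, mul_one]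
  have : (A ⊔ f.ker).FiniteIndex := finiteIndex_of_le le_sup_left
  exact this.index_ne_zero

theorem finiteIndex_map_subtype (H : Subgroup G) (hH : H.FiniteIndex) (A : Subgroup H)
    (hA : A.FiniteIndex) : (A.map H.subtype).FiniteIndex := by
  refine ⟨?_⟩
  rw [index_map, H.ker_subtype, sup_bot_eq, H.range_subtype]
  exact mul_ne_zero hA.index_ne_zero hH.index_ne_zero

theorem VCh.of_injective (f : G →* Q) (hf : Function.Injective f) (h : VCh Q) : VCh G := by
  obtain ⟨⟨A, hA, hc⟩, hd⟩ := h
  refine ⟨⟨A.comap f, finiteIndex_comap f A hA, fun a ha b hb => hf ?_⟩, ?_⟩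
  · rw [map_mul, map_mul]; exact hc _ ha _ hb
  · have : StrictMono (Subgroup.map f) :=
      Monotone.strictMono_of_injective (fun _ _ h => Subgroup.map_mono h)
        (Subgroup.map_injective hf)
    exact this.wellFoundedLT

theorem VCh.of_surjective (f : G →* Q) (hf : Function.Surjective f) (h : VCh G) : VCh Q := by
  obtain ⟨⟨A, hA, hc⟩, hd⟩ := h
  refine ⟨⟨A.map f, finiteIndex_map_of_surjective f hf A hA, ?_⟩, ?_⟩
  · rintro _ ⟨a, ha, rfl⟩ _ ⟨b, hb, rfl⟩
    rw [← map_mul, ← map_mul, hc a ha b hb]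
  · have : StrictMono (Subgroup.comap f) :=
      Monotone.strictMono_of_injective (fun _ _ h => Subgroup.comap_mono h)
        (Subgroup.comap_injective hf)
    exact this.wellFoundedLT

theorem VCh.sub (h : VCh G) (H : Subgroup G) : VCh H :=
  h.of_injective H.subtype H.subtype_injective

theorem VCh.of_le {H K : Subgroup G} (h : VCh K) (hle : H ≤ K) : VCh H :=
  h.of_injective (Subgroup.inclusion hle) (Subgroup.inclusion_injective hle)

theorem VCh.of_finite [Finite G] : VCh G :=
  ⟨⟨⊥, inferInstance, by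
    intro a ha b hb
    rw [Subgroup.mem_bot] at ha hb
    rw [ha, hb]⟩, inferInstance⟩

theorem dcc_ext (N : Subgroup G) [N.Normal] (h1 : WellFoundedLT (Subgroup N))
    (h2 : WellFoundedLT (Subgroup (G ⧸ N))) : WellFoundedLT (Subgroup G) := by
  have : StrictMono (fun H : Subgroup G => (H.subgroupOf N, H.map (QuotientGroup.mk' N))) := by
    intro H K hHK
    have hle := hHK.le
    refine lt_of_le_of_ne ⟨Subgroup.comap_mono hle, Subgroup.map_mono hle⟩ ?_
    intro heq
    rw [Prod.mk.injEq] at heq
    refine hHK.not_ge ?_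
    intro k hk
    have hk' : QuotientGroup.mk' N k ∈ H.map (QuotientGroup.mk' N) := by
      rw [heq.2]; exact ⟨k, hk, rfl⟩
    obtain ⟨h, hh, hhk⟩ := hk'
    have hN : h⁻¹ * k ∈ N := by
      rw [← QuotientGroup.eq]; exact hhk
    have hK : h⁻¹ * k ∈ K := K.mul_mem (K.inv_mem (hle hh)) hk
    have : (⟨h⁻¹ * k, hN⟩ : N) ∈ H.subgroupOf N := by
      rw [heq.1]; exact hK
    have h3 : h⁻¹ * k ∈ H := this
    have := H.mul_mem hh h3
    rwa [mul_inv_cancel_left] at this
  exact this.wellFoundedLT

theorem VCh.of_finiteIndex (H : Subgroup G) (hH : H.FiniteIndex) (h : VCh H) : VCh G := by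
  obtain ⟨A, hA, hc⟩ := h.ab
  refine ⟨⟨A.map H.subtype, finiteIndex_map_subtype H hH A hA, ?_⟩, ?_⟩
  · rintro _ ⟨a, ha, rfl⟩ _ ⟨b, hb, rfl⟩
    rw [← map_mul, ← map_mul, hc a ha b hb]
  · have hN : H.normalCore.FiniteIndex := inferInstance
    have : Finite (G ⧸ H.normalCore) := inferInstance
    exact dcc_ext H.normalCore (h.of_le H.normalCore_le).dcc inferInstance

end basic

section fperf

variable {L : Type u} [Group L]

theorem FPerf.hom_finite (hL : FPerf L) {F : Type v} [Group F] [Finite F] (f : L →* F) : f = 1 := by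
  have hk : f.ker.FiniteIndex := inferInstance
  have := hL _ hk
  ext l
  have hl : l ∈ f.ker := by rw [this]; trivial
  exact hl

theorem FPerf.of_surjective (hL : FPerf L) {F : Type v} [Group F] (f : L →* F)
    (hf : Function.Surjective f) : FPerf F := by
  intro H hH
  have := hL _ (finiteIndex_comap f H hH)
  rw [eq_top_iff]
  rintro y -
  obtain ⟨x, rfl⟩ := hf y
  have : x ∈ H.comap f := by rw [this]; trivial
  exact this

theorem exists_dual_ne {B : Type v} [AddCommGroup B] {q : ℕ} [Fact q.Prime]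
    (i2 : Module (ZMod q) B) (w : B) (hw : w ≠ 0) : ∃ φ : B →ₗ[ZMod q] (ZMod q), φ w ≠ 0 := by
  by_contra hcon
  rw [not_exists] at hcon
  refine hw ((Module.forall_dual_apply_eq_zero_iff (ZMod q) w).mp fun φ => ?_)
  by_contra h5
  exact hcon φ h5

theorem exists_hom_zmod {B : Type v} [CommGroup B] {q : ℕ} (hq : q.Prime)
    (h : ∀ b : B, b ^ q = 1) {b : B} (hb : b ≠ 1) :
    ∃ f : B →* Multiplicative (ZMod q), f b ≠ 1 := by
  have : Fact q.Prime := ⟨hq⟩
  obtain ⟨φ, hφ⟩ := exists_dual_ne (B := Additive B) (q := q)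
    (AddCommGroup.zmodModule (n := q) (fun x => h x.toMul)) (Additive.ofMul b) (fun h => hb h)
  refine ⟨AddMonoidHom.toMultiplicativeRight (LinearMap.toAddMonoidHom φ), ?_⟩
  intro h3
  exact hφ h3

theorem FPerf.hom_prime (hL : FPerf L) {B : Type v} [CommGroup B] {q : ℕ} (hq : q.Prime)
    (f : L →* B) (h : ∀ l, f l ^ q = 1) : f = 1 := by
  have : Fact q.Prime := ⟨hq⟩
  ext l
  by_contra hne
  let R := f.range
  have hR : ∀ b : R, b ^ q = 1 := by
    rintro ⟨_, ⟨m, rfl⟩⟩
    ext
    exact h m
  have hb : (⟨f l, ⟨l, rfl⟩⟩ : R) ≠ 1 := by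
    intro h0
    exact hne (congrArg Subtype.val h0)
  obtain ⟨φ, hφ⟩ := exists_hom_zmod hq hR hb
  have h4 := hL.hom_finite (φ.comp f.rangeRestrict)
  have h5 := DFunLike.congr_fun h4 l
  exact hφ h5

theorem FPerf.hom_exp (hL : FPerf L) {B : Type v} [CommGroup B] (n : ℕ) (hn : 0 < n)
    (f : L →* B) (h : ∀ l, f l ^ n = 1) : f = 1 := by
  induction n using Nat.strong_induction_on generalizing f with
  | _ n ih =>
    by_cases h1 : n = 1
    · subst h1
      ext l
      simpa using h l
    · obtain ⟨q, hq, m, rfl⟩ : ∃ q, q.Prime ∧ ∃ m, n = q * m := by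
        obtain ⟨q, hq, hd⟩ := Nat.exists_prime_and_dvd h1
        exact ⟨q, hq, hd⟩
      have hm : 0 < m := Nat.pos_of_mul_pos_left hn |> fun h => by
        rcases Nat.eq_zero_or_pos m with h0 | h0
        · subst h0; simp at hn
        · exact h0
      have hlt : m < q * m := by
        have := hq.two_le
        nlinarith
      have h2 : (powMonoidHom m).comp f = 1 := by
        refine hL.hom_prime hq _ ?_
        intro l
        have := h l
        simp only [MonoidHom.coe_comp, Function.comp_apply, powMonoidHom_apply]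
        rw [← pow_mul, mul_comm m q]
        exact this
      refine ih m hlt hm f ?_
      intro l
      exact DFunLike.congr_fun h2 l

theorem FPerf.hom_exp' (hL : FPerf L) {B : Type v} [i : Group B] (hc : ∀ a b : B, a * b = b * a)
    (n : ℕ) (hn : 0 < n) (f : L →* B) (h : ∀ l, f l ^ n = 1) : f = 1 := by
  let j : CommGroup B := { i with mul_comm := hc }
  exact hL.hom_exp (B := B) n hn f h

/-- In a torsion group without proper subgroups of finite index the second centre is the
centre. -/
theorem FPerf.z2 (hL : FPerf L) (ht : ∀ g : L, IsOfFinOrder g) {w : L}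
    (hw : ∀ l : L, w * l * w⁻¹ * l⁻¹ ∈ Subgroup.center L) : w ∈ Subgroup.center L := by
  have hc : ∀ l g : L, g * (w * l * w⁻¹ * l⁻¹) = (w * l * w⁻¹ * l⁻¹) * g := fun l g =>
    (Subgroup.mem_center_iff.mp (hw l)) g
  let φ : L →* Subgroup.center L :=
    { toFun := fun l => ⟨w * l * w⁻¹ * l⁻¹, hw l⟩
      map_one' := by ext; simp
      map_mul' := by
        intro a b
        ext
        simp only [Subgroup.coe_mul]
        calc w * (a * b) * w⁻¹ * (a * b)⁻¹
            = (w * a * w⁻¹ * a⁻¹) * (a * (w * b * w⁻¹ * b⁻¹)) * a⁻¹ := by group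
          _ = (w * a * w⁻¹ * a⁻¹) * ((w * b * w⁻¹ * b⁻¹) * a) * a⁻¹ := by rw [hc b a]
          _ = w * a * w⁻¹ * a⁻¹ * (w * b * w⁻¹ * b⁻¹) := by group }
  have hpow : ∀ (n : ℕ) (l : L), w ^ n * l * (w ^ n)⁻¹ * l⁻¹ = (w * l * w⁻¹ * l⁻¹) ^ n := by
    intro n l
    induction n with
    | zero => simp
    | succ n ih =>
      calc w ^ (n + 1) * l * (w ^ (n + 1))⁻¹ * l⁻¹
          = w * (w ^ n * l * (w ^ n)⁻¹ * l⁻¹) * l * w⁻¹ * l⁻¹ := by
            rw [pow_succ']; group
        _ = w * (w * l * w⁻¹ * l⁻¹) ^ n * l * w⁻¹ * l⁻¹ := by rw [ih]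
        _ = (w * l * w⁻¹ * l⁻¹) ^ n * (w * l * w⁻¹ * l⁻¹) := by
            have : w * (w * l * w⁻¹ * l⁻¹) ^ n = (w * l * w⁻¹ * l⁻¹) ^ n * w := by
              have h1 := (Subgroup.center L).pow_mem (hw l) n
              exact (Subgroup.mem_center_iff.mp h1) w
            rw [this]; group
        _ = (w * l * w⁻¹ * l⁻¹) ^ (n + 1) := by rw [pow_succ]
  obtain ⟨n, hn, hwn⟩ := (isOfFinOrder_iff_pow_eq_one.mp (ht w))
  have h1 : φ = 1 := by
    refine hL.hom_exp' (fun a b => ?_) n hn φ ?_
    · ext
      exact (Subgroup.mem_center_iff.mp b.2) a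
    intro l
    ext
    simp only [Subgroup.coe_pow, φ, MonoidHom.coe_mk, OneHom.coe_mk, Subgroup.coe_one]
    rw [← hpow n l, hwn]
    simp
  rw [Subgroup.mem_center_iff]
  intro g
  have h2 : w * g * w⁻¹ * g⁻¹ = 1 := congrArg Subtype.val (DFunLike.congr_fun h1 g)
  have h3 : w * g = g * w := by
    have := congrArg (fun t => t * g * w) h2
    simpa using this
  exact h3.symm

/-- A finite normal subgroup is central. -/
theorem FPerf.finite_normal (hL : FPerf L) (F : Subgroup L) [F.Normal] [Finite F] :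
    F ≤ Subgroup.center L := by
  have h := hL.hom_finite (MulAut.conjNormal (H := F) : L →* MulAut F)
  intro f hf
  rw [Subgroup.mem_center_iff]
  intro g
  have h1 := DFunLike.congr_fun (DFunLike.congr_fun h g) (⟨f, hf⟩ : F)
  have h2 : g * f * g⁻¹ = f := by
    have := congrArg Subtype.val h1
    simpa [MulAut.conjNormal_apply] using this
  calc g * f = g * f * g⁻¹ * g := by group
    _ = f * g := by rw [h2]

end fperf

section finexp

/-- An abelian group of finite exponent with the minimal condition is finite. -/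
theorem finite_of_exp_aux {B : Type v} [AddCommGroup B] {n : ℕ} [NeZero n]
    (i2 : Module (ZMod n) B) (hd : WellFoundedLT (AddSubgroup B)) : Finite B := by
  have h1 : IsArtinian (ZMod n) B := by
    have hm : StrictMono (fun S : Submodule (ZMod n) B => S.toAddSubgroup) := by
      intro S T hST
      exact (Submodule.toAddSubgroup_strictMono (R := ZMod n) (M := B)) hST
    exact hm.wellFoundedLT
  have h2 : IsNoetherian (ZMod n) B := by
    exact IsSemiprimaryRing.isNoetherian_iff_isArtinian.mpr h1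
  have h3 : Module.Finite (ZMod n) B := inferInstance
  exact Module.finite_of_finite (ZMod n)

theorem finite_of_exp {A : Type v} [CommGroup A] {n : ℕ} (hn : 0 < n) (h : ∀ a : A, a ^ n = 1)
    (hd : WellFoundedLT (Subgroup A)) : Finite A := by
  have : NeZero n := ⟨hn.ne'⟩
  have h1 : WellFoundedLT (AddSubgroup (Additive A)) := by
    have : StrictMono (Subgroup.toAddSubgroup (G := A)).symm := OrderIso.strictMono _
    exact this.wellFoundedLT
  exact finite_of_exp_aux (B := Additive A) (n := n)
    (AddCommGroup.zmodModule (n := n) (fun x => h x.toMul)) h1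

end finexp

end Run7.h806
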