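import Pool.Agent.Run7.h806.Base

set_option autoImplicit false

namespace Run7.h806

open Subgroup

universe u v

theorem finite_of_exp' {A : Type v} [i : Group A] (hc : ∀ a b : A, a * b = b * a) {n : ℕ}
    (hn : 0 < n) (h : ∀ a : A, a ^ n = 1) (hd : WellFoundedLT (Subgroup A)) : Finite A := by
  let j : CommGroup A := { i with mul_comm := hc }
  exact finite_of_exp (A := A) hn h hd

theorem exists_least {G : Type u} [Group G] (hd : WellFoundedLT (Subgroup G)) :
    ∃ D : Subgroup G, D.FiniteIndex ∧ D.Characteristic ∧ FPerf D ∧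
      (∀ H : Subgroup G, H.FiniteIndex → D ≤ H) := by
  obtain ⟨D, hD, hmin⟩ := WellFounded.has_min (r := ((· < ·) : Subgroup G → Subgroup G → Prop))
    wellFounded_lt {H : Subgroup G | H.FiniteIndex} ⟨⊤, inferInstanceAs (⊤ : Subgroup G).FiniteIndex⟩
  have hD' : D.FiniteIndex := hD
  have hle : ∀ H : Subgroup G, H.FiniteIndex → D ≤ H := by
    intro H hH
    have h1 : (D ⊓ H).FiniteIndex := inferInstance
    have h2 : ¬ (D ⊓ H < D) := hmin _ h1
    have h3 : D ⊓ H = D := by
      by_contra hne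
      exact h2 (lt_of_le_of_ne inf_le_left hne)
    exact inf_eq_left.mp h3
  refine ⟨D, hD', ?_, ?_, hle⟩
  · rw [characteristic_iff_le_comap]
    intro φ
    exact hle _ (finiteIndex_comap _ _ hD')
  · intro H hH
    have h1 := hle _ (finiteIndex_map_subtype D hD' H hH)
    rw [eq_top_iff]
    rintro ⟨d, hd'⟩ -
    obtain ⟨h, hh, rfl⟩ := h1 hd'
    exact hh

theorem FPerf.comm_of_vch {G : Type u} [Group G] (hp : FPerf G) (h : VCh G) :
    ∀ a b : G, a * b = b * a := by
  obtain ⟨A, hA, hc⟩ := h.ab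
  have := hp A hA
  subst this
  exact fun a b => hc a trivial b trivial

theorem exists_fres {G : Type u} [Group G] (h : VCh G) :
    ∃ D : Subgroup G, D.FiniteIndex ∧ D.Characteristic ∧ FPerf D ∧
      (∀ a ∈ D, ∀ b ∈ D, a * b = b * a) := by
  obtain ⟨D, h1, h2, h3, h4⟩ := exists_least h.dcc
  obtain ⟨A, hA, hc⟩ := h.ab
  exact ⟨D, h1, h2, h3, fun a ha b hb => hc a (h4 A hA ha) b (h4 A hA hb)⟩

theorem finite_range_of_ker {G : Type u} [Group G] {Q : Type v} [Group Q] (f : G →* Q)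
    (h : f.ker.FiniteIndex) : Finite f.range :=
  Finite.of_equiv _ (QuotientGroup.quotientKerEquivRange f).toEquiv

/-- The `n`-torsion of a commutative subgroup. -/
def tor {G : Type u} [Group G] (D : Subgroup G) (hc : ∀ a ∈ D, ∀ b ∈ D, a * b = b * a) (n : ℕ) :
    Subgroup G where
  carrier := {g | g ∈ D ∧ g ^ n = 1}
  one_mem' := ⟨D.one_mem, one_pow _⟩
  mul_mem' := by
    rintro a b ⟨ha, ha'⟩ ⟨hb, hb'⟩
    refine ⟨D.mul_mem ha hb, ?_⟩
    have : Commute a b := hc a ha b hb
    rw [this.mul_pow, ha', hb', one_mul]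
  inv_mem' := by
    rintro a ⟨ha, ha'⟩
    exact ⟨D.inv_mem ha, by rw [inv_pow, ha', inv_one]⟩

theorem finite_tor {G : Type u} [Group G] (D : Subgroup G)
    (hc : ∀ a ∈ D, ∀ b ∈ D, a * b = b * a) (hd : WellFoundedLT (Subgroup D)) {n : ℕ}
    (hn : 0 < n) : Finite (tor D hc n) := by
  have hle : tor D hc n ≤ D := fun x hx => hx.1
  have h1 : WellFoundedLT (Subgroup (tor D hc n)) := by
    have : StrictMono (Subgroup.map (Subgroup.inclusion hle)) :=
      Monotone.strictMono_of_injective (fun _ _ h => Subgroup.map_mono h)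
        (Subgroup.map_injective (Subgroup.inclusion_injective hle))
    exact this.wellFoundedLT
  refine finite_of_exp' ?_ hn ?_ h1
  · rintro ⟨a, ha⟩ ⟨b, hb⟩
    ext
    exact hc a ha.1 b hb.1
  · rintro ⟨a, ha⟩
    ext
    exact ha.2

theorem tor_normal {G : Type u} [Group G] (D : Subgroup G) (hD : D.Normal)
    (hc : ∀ a ∈ D, ∀ b ∈ D, a * b = b * a) (n : ℕ) : (tor D hc n).Normal := by
  refine ⟨?_⟩
  rintro a ⟨ha, ha'⟩ g
  refine ⟨hD.conj_mem a ha g, ?_⟩
  rw [conj_pow, ha', mul_one, mul_inv_cancel]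

/-- A normal Chernikov subgroup of a torsion group without proper subgroups of finite index is
central. -/
theorem FPerf.vch_normal {L : Type u} [Group L] (hL : FPerf L) (ht : ∀ g : L, IsOfFinOrder g)
    (K : Subgroup L) [K.Normal] (hK : VCh K) : K ≤ Subgroup.center L := by
  obtain ⟨D, hDf, hDc, hDp, hDa⟩ := exists_fres hK
  let D' : Subgroup L := D.map K.subtype
  have hDn : D'.Normal := inferInstanceAs (D.map K.subtype).Normal
  have hle : D' ≤ K := by
    rintro _ ⟨x, -, rfl⟩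
    exact x.2
  have hc : ∀ a ∈ D', ∀ b ∈ D', a * b = b * a := by
    rintro _ ⟨a, ha, rfl⟩ _ ⟨b, hb, rfl⟩
    rw [← map_mul, ← map_mul, hDa a ha b hb]
  have hcen : D' ≤ Subgroup.center L := by
    intro d hd
    obtain ⟨n, hn, hdn⟩ := isOfFinOrder_iff_pow_eq_one.mp (ht d)
    have h1 := finite_tor D' hc (hK.of_le hle).dcc hn
    have h2 := tor_normal D' hDn hc n
    exact hL.finite_normal (tor D' hc n) ⟨hd, hdn⟩
  intro k hk
  refine hL.z2 ht ?_
  intro l
  apply hcen
  let f : K →* L ⧸ D' := (QuotientGroup.mk' D').comp K.subtype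
  have hker : f.ker.FiniteIndex := by
    refine finiteIndex_of_le (H := D) ?_
    intro d hd
    rw [MonoidHom.mem_ker]
    have : (d : L) ∈ D' := ⟨d, hd, rfl⟩
    exact (QuotientGroup.eq_one_iff _).mpr this
  have hfin := finite_range_of_ker f hker
  have hr : f.range = K.map (QuotientGroup.mk' D') := by
    rw [MonoidHom.range_comp, K.range_subtype]
  rw [hr] at hfin
  have hKn : (K.map (QuotientGroup.mk' D')).Normal :=
    Subgroup.Normal.map inferInstance _ (QuotientGroup.mk'_surjective D')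
  have hQ : FPerf (L ⧸ D') := hL.of_surjective _ (QuotientGroup.mk'_surjective D')
  have h3 := hQ.finite_normal (K.map (QuotientGroup.mk' D'))
  have h4 : QuotientGroup.mk' D' k ∈ Subgroup.center (L ⧸ D') := h3 ⟨k, hk, rfl⟩
  rw [Subgroup.mem_center_iff] at h4
  have h5 := h4 (QuotientGroup.mk' D' l)
  rw [← QuotientGroup.eq_one_iff]
  change QuotientGroup.mk' D' (k * l * k⁻¹ * l⁻¹) = 1
  rw [map_mul, map_mul, map_mul, map_inv, map_inv, ← h5]
  group

theorem tors_sub {G : Type u} [Group G] (ht : ∀ g : G, IsOfFinOrder g) (H : Subgroup G) :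
    ∀ g : H, IsOfFinOrder g := by
  intro g
  obtain ⟨n, hn, h⟩ := isOfFinOrder_iff_pow_eq_one.mp (ht g)
  exact isOfFinOrder_iff_pow_eq_one.mpr ⟨n, hn, Subtype.ext h⟩

theorem tors_surj {G : Type u} [Group G] {Q : Type v} [Group Q] (ht : ∀ g : G, IsOfFinOrder g)
    (f : G →* Q) (hf : Function.Surjective f) : ∀ g : Q, IsOfFinOrder g := by
  intro g
  obtain ⟨x, rfl⟩ := hf g
  obtain ⟨n, hn, h⟩ := isOfFinOrder_iff_pow_eq_one.mp (ht x)
  exact isOfFinOrder_iff_pow_eq_one.mpr ⟨n, hn, by rw [← map_pow, h, map_one]⟩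

theorem VCh.ext {G : Type u} [Group G] (ht : ∀ g : G, IsOfFinOrder g) (N : Subgroup G) [N.Normal]
    (h1 : VCh N) (h2 : VCh (G ⧸ N)) : VCh G := by
  have hd := dcc_ext N h1.dcc h2.dcc
  refine ⟨?_, hd⟩
  obtain ⟨L, hLf, hLc, hLp, -⟩ := exists_least hd
  refine ⟨L, hLf, ?_⟩
  let f : L →* G ⧸ N := (QuotientGroup.mk' N).comp L.subtype
  have htL : ∀ g : L, IsOfFinOrder g := tors_sub ht L
  have hK : VCh (N.subgroupOf L) :=
    h1.of_injective (L.subtype.subgroupComap N) (by
      intro a b hab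
      have := congrArg Subtype.val hab
      exact Subtype.ext (Subtype.ext this))
  have hcen := hLp.vch_normal htL (N.subgroupOf L) hK
  have hR : VCh f.range := h2.sub _
  have hRp : FPerf f.range := hLp.of_surjective f.rangeRestrict f.rangeRestrict_surjective
  have hRc := hRp.comm_of_vch hR
  have hcomm : ∀ w : L, w ∈ Subgroup.center L := by
    intro w
    refine hLp.z2 htL ?_
    intro l
    apply hcen
    have h3 := hRc (f.rangeRestrict w) (f.rangeRestrict l)
    have h4 : f w * f l = f l * f w := congrArg Subtype.val h3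
    have h5 : f (w * l * w⁻¹ * l⁻¹) = 1 := by
      rw [map_mul, map_mul, map_mul, map_inv, map_inv, h4]
      group
    exact (QuotientGroup.eq_one_iff (N := N) ((w * l * w⁻¹ * l⁻¹ : L) : G)).mp h5
  intro a ha b hb
  have := (Subgroup.mem_center_iff.mp (hcomm ⟨b, hb⟩)) ⟨a, ha⟩
  exact congrArg Subtype.val this

theorem VCh.of_finite_quot {G : Type u} [Group G] (N : Subgroup G) [N.Normal] (h1 : VCh N)
    (h2 : Finite (G ⧸ N)) : VCh G :=
  VCh.of_finiteIndex N (Subgroup.finiteIndex_iff_finite_quotient.mpr h2) h1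

theorem FPerf.divisible {A : Type v} [CommGroup A] (h : FPerf A) {m : ℕ} (hm : 0 < m) (a : A) :
    ∃ b, b ^ m = a := by
  have h1 := h.hom_exp m hm (QuotientGroup.mk' (powMonoidHom m : A →* A).range) (by
    intro l
    rw [← map_pow]
    exact (QuotientGroup.eq_one_iff _).mpr ⟨l, rfl⟩)
  have h2 := DFunLike.congr_fun h1 a
  have h3 : a ∈ (powMonoidHom m : A →* A).range := (QuotientGroup.eq_one_iff _).mp h2
  obtain ⟨b, hb⟩ := h3
  exact ⟨b, hb⟩

/-- elements killed by something coprime to `n!`. -/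
def coprimePart (A : Type v) [CommGroup A] (n : ℕ) : Subgroup A where
  carrier := {a | ∃ m, m.Coprime (n.factorial) ∧ a ^ m = 1}
  one_mem' := ⟨1, Nat.coprime_one_left _, one_pow _⟩
  mul_mem' := by
    rintro a b ⟨m, hm, ha⟩ ⟨k, hk, hb⟩
    refine ⟨m * k, Nat.Coprime.mul_left hm hk, ?_⟩
    rw [mul_pow, pow_mul, ha, one_pow, mul_comm m k, pow_mul, hb, one_pow, one_mul]
  inv_mem' := by
    rintro a ⟨m, hm, ha⟩
    exact ⟨m, hm, by rw [inv_pow, ha, inv_one]⟩

theorem finite_socle {A : Type v} [CommGroup A] (hd : WellFoundedLT (Subgroup A)) :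
    {a : A | ∃ q : ℕ, q.Prime ∧ a ^ q = 1}.Finite := by
  obtain ⟨_, ⟨n0, rfl⟩, hmin⟩ := WellFounded.has_min
    (r := ((· < ·) : Subgroup A → Subgroup A → Prop)) wellFounded_lt
    (Set.range (coprimePart A)) ⟨_, ⟨0, rfl⟩⟩
  have hanti : ∀ m, n0 ≤ m → coprimePart A m = coprimePart A n0 := by
    intro m hm
    have hle : coprimePart A m ≤ coprimePart A n0 := by
      rintro a ⟨k, hk, ha⟩
      exact ⟨k, Nat.Coprime.coprime_dvd_right (Nat.factorial_dvd_factorial hm) hk, ha⟩
    by_contra hne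
    exact hmin _ ⟨m, rfl⟩ (lt_of_le_of_ne hle hne)
  have hsub : {a : A | ∃ q : ℕ, q.Prime ∧ a ^ q = 1} ⊆
      ({1} : Set A) ∪ ⋃ q ∈ Finset.Icc 1 n0, {a : A | a ^ q = 1} := by
    rintro a ⟨q, hq, haq⟩
    by_cases h1 : a = 1
    · left; exact h1
    · right
      rw [Set.mem_iUnion₂]
      by_cases hle : q ≤ n0
      · exact ⟨q, Finset.mem_Icc.mpr ⟨hq.one_le, hle⟩, haq⟩
      · exfalso
        rw [not_le] at hle
        have h2 : a ∈ coprimePart A n0 := by
          refine ⟨q, ?_, haq⟩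
          exact (Nat.coprime_factorial_iff hq.ne_one).mpr (by rw [hq.minFac_eq]; exact hle)
        rw [← hanti q hle.le] at h2
        obtain ⟨m, hm, ham⟩ := h2
        have h3 : m.Coprime q := Nat.Coprime.coprime_dvd_right (Nat.dvd_factorial hq.pos le_rfl) hm
        have h4 : orderOf a ∣ Nat.gcd m q :=
          Nat.dvd_gcd (orderOf_dvd_of_pow_eq_one ham) (orderOf_dvd_of_pow_eq_one haq)
        rw [h3, Nat.dvd_one, orderOf_eq_one_iff] at h4
        exact h1 h4
  refine Set.Finite.subset ?_ hsub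
  refine (Set.finite_singleton 1).union ?_
  refine Set.Finite.biUnion (Finset.finite_toSet _) ?_
  intro q hq
  have hq1 : 0 < q := (Finset.mem_Icc.mp hq).1
  have h1 := finite_tor (⊤ : Subgroup A) (fun a _ b _ => mul_comm a b)
    ((Subgroup.topEquiv (G := A)).symm.comapSubgroup.strictMono.wellFoundedLT) hq1
  have h2 : ((tor (⊤ : Subgroup A) (fun a _ b _ => mul_comm a b) q : Subgroup A) : Set A).Finite :=
    Set.toFinite _
  refine h2.subset ?_
  intro a ha
  exact ⟨trivial, ha⟩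

/-- The form of the Chernikov property used in the frozen statement. -/
theorem VCh.final {G : Type u} [Group G] (h : VCh G) :
    ∃ A : Subgroup G, A.Normal ∧ A.FiniteIndex ∧ (∀ a ∈ A, ∀ b ∈ A, a * b = b * a) ∧
      (∀ a ∈ A, ∀ m : ℕ, 0 < m → ∃ b ∈ A, b ^ m = a) ∧
      {a : G | a ∈ A ∧ ∃ q : ℕ, q.Prime ∧ a ^ q = 1}.Finite := by
  obtain ⟨D, h1, h2, h3, h4⟩ := exists_fres h
  refine ⟨D, inferInstance, h1, h4, ?_, ?_⟩
  · intro a ha m hm
    let j : CommGroup D := { (inferInstance : Group D) with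
      mul_comm := fun a b => Subtype.ext (h4 _ a.2 _ b.2) }
    obtain ⟨b, hb⟩ := FPerf.divisible (A := D) h3 hm ⟨a, ha⟩
    exact ⟨b, b.2, congrArg Subtype.val hb⟩
  · let j : CommGroup D := { (inferInstance : Group D) with
      mul_comm := fun a b => Subtype.ext (h4 _ a.2 _ b.2) }
    have h5 := finite_socle (A := D) (h.sub D).dcc
    refine (h5.image (Subtype.val)).subset ?_
    rintro a ⟨ha, q, hq, haq⟩
    exact ⟨⟨a, ha⟩, ⟨q, hq, Subtype.ext haq⟩, rfl⟩

end Run7.h806
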