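import Pool.Agent.Run7.h806.Simple

set_option autoImplicit false

namespace Run7.h806

open Subgroup
open scoped Pointwise

universe u v

/-- The exceptional simple groups. -/
def Bad (p : ℕ) (S : Type u) [Group S] : Prop :=
  Infinite S ∧ IsSimpleGroup S ∧ (∀ s : S, PElt p s → s = 1) ∧
  ((∀ T : Subgroup S, T ≠ ⊤ → VCh T) ∨
   ∃ φ : MulAut S, φ ≠ 1 ∧ φ ^ p = 1 ∧ ∀ T : Subgroup S, T ≠ ⊤ → (∀ t ∈ T, φ t ∈ T) →
     VCh (closure {s : S | ∃ t ∈ T, s = t⁻¹ * φ t}))

/-- `S` is a section of `G`. -/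
def Sec (S : Type u) [Group S] (G : Type v) [Group G] : Prop :=
  ∃ H : Subgroup G, ∃ f : H →* S, Function.Surjective f

variable {p : ℕ} {G : Type u} [Group G]

theorem MinCE.infinite {N : Subgroup G} (h : MinCE p G N) : ¬ Finite N := by
  intro hf
  apply h.nch
  have h1 := h.fi
  have h2 : Finite (G ⧸ N) := inferInstance
  have : Finite G := Finite.of_equiv _ (Subgroup.groupEquivQuotientProdSubgroup (s := N)).symm
  exact VCh.of_finite

theorem MinCE.simple_case {N : Subgroup G} (hp : p.Prime) (h : MinCE p G N)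
    (hZ : ∀ c ∈ N, (∀ n ∈ N, c * n = n * c) → c = 1)
    (hs : ∀ R, NN N R → R ≠ ⊥ → R = N) : Bad p N := by
  have hN := h.nrm
  obtain ⟨x, hx, hxN⟩ := h.exists_gen hp N h.fi h.pp
  have hpc := h.pow_central hp hZ hx hxN
  refine ⟨not_finite_iff_infinite.mp h.infinite, ?_, ?_, Or.inr ⟨MulAut.conjNormal x, ?_, ?_, ?_⟩⟩
  · have hnt : Nontrivial N := by
      rw [Subgroup.nontrivial_iff_ne_bot]
      exact h.ne_bot
    refine ⟨fun H hH => ?_⟩
    by_cases hb : H = ⊥
    · exact Or.inl hb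
    · right
      have h1 : NN N (H.map N.subtype) := by
        refine ⟨by rintro _ ⟨y, -, rfl⟩; exact y.2, ?_⟩
        rintro n hn _ ⟨y, hy, rfl⟩
        exact ⟨⟨n, hn⟩ * y * ⟨n, hn⟩⁻¹, hH.conj_mem y hy _, rfl⟩
      have h2 : H.map N.subtype ≠ ⊥ := by
        intro he
        apply hb
        rwa [Subgroup.map_eq_bot_iff_of_injective _ N.subtype_injective] at he
      have h3 := hs _ h1 h2
      apply Subgroup.map_injective N.subtype_injective
      rw [h3, ← MonoidHom.range_eq_map, N.range_subtype]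
  · rintro ⟨s, hs'⟩ hsp
    exact Subtype.ext (h.pp s hs' (hsp.map N.subtype))
  · intro he
    apply h.ne_bot
    have h1 : ∀ v ∈ N, x * v = v * x := by
      intro v hv
      have h2 := congrArg Subtype.val (DFunLike.congr_fun he ⟨v, hv⟩)
      rw [MulAut.conjNormal_apply] at h2
      have h3 := congrArg (fun t => t * x) h2
      simpa using h3
    rw [eq_bot_iff]
    intro v hv
    exact hZ v hv fun n _ => h.centralizer_top hp hxN N h1 n v hv
  · ext ⟨n, hn⟩
    rw [← map_pow, MulAut.conjNormal_apply]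
    change x ^ p * n * (x ^ p)⁻¹ = n
    rw [hpc n hn, mul_inv_cancel_right]
  · intro T hT hinv
    have hle : T.map N.subtype ≤ N := by rintro _ ⟨y, -, rfl⟩; exact y.2
    have hne : T.map N.subtype ≠ N := by
      intro he
      apply hT
      apply Subgroup.map_injective N.subtype_injective
      rw [he, ← MonoidHom.range_eq_map, N.range_subtype]
    have hV := h.vch_of_invariant hle hne hx (by
      rintro _ ⟨y, hy, rfl⟩
      refine ⟨MulAut.conjNormal x y, hinv y hy, ?_⟩
      change ((MulAut.conjNormal x y : N) : G) = _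
      rw [MulAut.conjNormal_apply]; rfl)
    rw [← VCh.map_iff]
    refine hV.of_le ?_
    rw [MonoidHom.map_closure, closure_le]
    rintro _ ⟨_, ⟨t, ht, rfl⟩, rfl⟩
    have h1 : N.subtype (t⁻¹ * MulAut.conjNormal x t) = ((t : G)⁻¹ * x * t) * x⁻¹ := by
      change (t : G)⁻¹ * ((MulAut.conjNormal x t : N) : G) = _
      rw [MulAut.conjNormal_apply]; group
    rw [h1]
    have ht' : (t : G) ∈ T.map N.subtype ⊔ zpowers x :=
      (le_sup_left : T.map N.subtype ≤ T.map N.subtype ⊔ zpowers x) ⟨t, ht, rfl⟩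
    have hx' : x ∈ T.map N.subtype ⊔ zpowers x :=
      (le_sup_right : zpowers x ≤ T.map N.subtype ⊔ zpowers x) (mem_zpowers x)
    refine Subgroup.mul_mem _ ?_ (Subgroup.inv_mem _ (mem_PP hx' hx))
    refine mem_PP (Subgroup.mul_mem _ (Subgroup.mul_mem _ (Subgroup.inv_mem _ ht') hx') ht') ?_
    have := hx.conj (t : G)⁻¹
    rwa [inv_inv] at this

/-- join of the conjugates by the powers of `x`. -/
def jn (p : ℕ) (x : G) (A : Subgroup G) : Subgroup G := ⨆ i : Fin p, cj (x ^ (i : ℕ)) A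

theorem cj_le_jn {x : G} {A : Subgroup G} {i : ℕ} (hi : i < p) : cj (x ^ i) A ≤ jn p x A :=
  le_iSup (fun i : Fin p => cj (x ^ (i : ℕ)) A) ⟨i, hi⟩

theorem le_jn (hp : p.Prime) {x : G} {A : Subgroup G} : A ≤ jn p x A := by
  refine le_trans ?_ (cj_le_jn (x := x) (A := A) (i := 0) hp.pos)
  intro a ha
  rw [mem_cj]
  simpa using ha

theorem jn_inv (hp : p.Prime) {N : Subgroup G} {x : G}
    (hpc : ∀ n ∈ N, x ^ p * n = n * x ^ p) {A : Subgroup G} (hA : A ≤ N) :
    ∀ a ∈ jn p x A, x * a * x⁻¹ ∈ jn p x A := by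
  have h1 : jn p x A ≤ (jn p x A).comap (MulAut.conj x).toMonoidHom := by
    refine iSup_le ?_
    rintro ⟨i, hi⟩ _ ⟨a, ha, rfl⟩
    rw [mem_comap]
    change x * (x ^ i * a * (x ^ i)⁻¹) * x⁻¹ ∈ jn p x A
    rcases Nat.lt_or_ge (i + 1) p with h | h
    · apply cj_le_jn h
      rw [mem_cj]
      have e : (x ^ (i + 1))⁻¹ * (x * (x ^ i * a * (x ^ i)⁻¹) * x⁻¹) * x ^ (i + 1) = a := by
        rw [pow_succ']; group
      rw [e]; exact ha
    · have hip : i + 1 = p := by omega
      apply le_jn hp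
      have e : x * (x ^ i * a * (x ^ i)⁻¹) * x⁻¹ = x ^ p * a * (x ^ p)⁻¹ := by
        rw [← hip, pow_succ']; group
      rw [e, hpc a (hA ha), mul_inv_cancel_right]
      exact ha
  exact fun a ha => h1 ha

theorem jn_le {N : Subgroup G} [hN : N.Normal] {x : G} {A : Subgroup G} (hA : A ≤ N) :
    jn p x A ≤ N := by
  refine iSup_le ?_
  rintro ⟨i, hi⟩ _ ⟨a, ha, rfl⟩
  exact hN.conj_mem a (hA ha) _

theorem jn_NN {N : Subgroup G} [hN : N.Normal] {x : G} {A : Subgroup G} (hA : NN N A) :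
    NN N (jn p x A) := by
  refine ⟨jn_le hA.1, fun n hn => ?_⟩
  have h1 : jn p x A ≤ (jn p x A).comap (MulAut.conj n).toMonoidHom := by
    refine iSup_le ?_
    rintro ⟨i, hi⟩ a ha
    exact cj_le_jn hi ((hA.cj (x ^ i)).2 n hn a ha)
  exact fun a ha => h1 ha

theorem MinCE.jn_eq {N : Subgroup G} (hp : p.Prime) (h : MinCE p G N)
    (hZ : ∀ c ∈ N, (∀ n ∈ N, c * n = n * c) → c = 1) {x : G} (hx : PElt p x)
    (hxN : N ⊔ zpowers x = ⊤) {A : Subgroup G} (hA : NN N A) (hA0 : A ≠ ⊥) : jn p x A = N := by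
  have hN := h.nrm
  have hn : (jn p x A).Normal := normal_of_NN h.tors (jn_NN hA) hxN
    (jn_inv hp (h.pow_central hp hZ hx hxN) hA.1)
  by_contra hne
  have := h.no_normal hp hZ (jn p x A) (jn_le hA.1) hne
  apply hA0
  rw [eq_bot_iff, ← this]
  exact le_jn hp

theorem MinCE.product_case {N : Subgroup G} (hp : p.Prime) (h : MinCE p G N)
    (hZ : ∀ c ∈ N, (∀ n ∈ N, c * n = n * c) → c = 1) {R : Subgroup G}
    (hR : NN N R) (hR0 : R ≠ ⊥) (hR1 : R ≠ N) : ∃ B : Subgroup G, Bad p B := by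
  have hN := h.nrm
  obtain ⟨x, hx, hxN⟩ := h.exists_gen hp N h.fi h.pp
  have hpc := h.pow_central hp hZ hx hxN
  obtain ⟨B, hB, hB0, hBi⟩ := h.ti hp hZ hx hxN hR hR0 hR1
  let C : Subgroup G := Subgroup.centralizer (B : Set G)
  have hCmem : ∀ {c : G}, c ∈ C ↔ ∀ b ∈ B, b * c = c * b := fun {c} =>
    Subgroup.mem_centralizer_iff
  have hcjC : ∀ i, 0 < i → i < p → cj (x ^ i) B ≤ C := by
    intro i hi hip c hc
    rw [hCmem]
    intro b hb
    have h1 : b * c * b⁻¹ * c⁻¹ ∈ B ⊓ cj (x ^ i) B := by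
      refine ⟨?_, ?_⟩
      · have e : b * c * b⁻¹ * c⁻¹ = b * (c * b⁻¹ * c⁻¹) := by group
        rw [e]
        exact B.mul_mem hb (hB.2 c ((hB.cj _).1 hc) _ (B.inv_mem hb))
      · exact (cj (x ^ i) B).mul_mem ((hB.cj (x ^ i)).2 b (hB.1 hb) c hc) (Subgroup.inv_mem _ hc)
    rw [hBi i hi hip, Subgroup.mem_bot] at h1
    have := congrArg (fun t => t * c * b) h1
    simpa using this
  have hjnC : ∀ A : Subgroup G, A ≤ B → jn p x A ≤ A ⊔ C := by
    intro A hA
    refine iSup_le ?_
    rintro ⟨i, hi⟩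
    rcases Nat.eq_zero_or_pos i with h0 | h0
    · subst h0
      refine le_trans ?_ le_sup_left
      intro a ha
      rw [mem_cj] at ha
      simpa using ha
    · exact (cj_mono hA).trans ((hcjC i h0 hi).trans le_sup_right)
  have hNBC : N ≤ B ⊔ C := by
    rw [← h.jn_eq hp hZ hx hxN hB hB0]
    exact hjnC B le_rfl
  have hBC : ∀ y, y ∈ B → y ∈ C → y = 1 := by
    intro y hyB hyC
    refine hZ y (hB.1 hyB) ?_
    have h1 : B ⊔ C ≤ Subgroup.centralizer {y} := by
      refine sup_le ?_ ?_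
      · intro b hb
        rw [Subgroup.mem_centralizer_singleton_iff]
        exact hCmem.mp hyC b hb
      · intro c hc
        rw [Subgroup.mem_centralizer_singleton_iff]
        exact (hCmem.mp hc y hyB).symm
    intro n hn
    exact (Subgroup.mem_centralizer_singleton_iff.mp (h1 (hNBC hn))).symm
  -- decomposition
  have hdec : ∀ A : Subgroup G, A ≤ B → B ≤ A ⊔ C → B ≤ A := by
    intro A hAB hle b hb
    have h1 : C ≤ Subgroup.normalizer (A : Set G) := by
      intro c hc
      rw [Subgroup.mem_normalizer_iff]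
      intro a
      constructor
      · intro ha
        rw [← hCmem.mp hc a (hAB ha), mul_inv_cancel_right]
        exact ha
      · intro ha
        have h2 := hCmem.mp hc _ (hAB ha)
        have h3 : a = c * a * c⁻¹ := by
          have := congrArg (fun t => c⁻¹ * t) h2
          simpa [mul_assoc] using this
        rw [h3]; exact ha
    have h2 := Subgroup.coe_mul_of_left_le_normalizer_right C A h1
    have h3 : b ∈ ((C ⊔ A : Subgroup G) : Set G) := by rw [sup_comm]; exact hle hb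
    rw [h2] at h3
    obtain ⟨c, hc, a, ha, rfl⟩ := h3
    simp only at hb ⊢
    have h4 : c ∈ B := by
      have := B.mul_mem hb (B.inv_mem (hAB ha))
      rwa [mul_inv_cancel_right] at this
    rw [hBC c h4 hc, one_mul]
    exact ha
  refine ⟨B, ?_, ?_, ?_, Or.inl ?_⟩
  · -- infinite
    rw [← not_finite_iff_infinite]
    intro hf
    apply hB0
    have hn : (B.subgroupOf N).Normal := by
      refine ⟨?_⟩
      rintro ⟨b, hb⟩ hb' ⟨n, hn⟩
      exact hB.2 n hn b hb'
    have hf' : Finite (B.subgroupOf N) :=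
      Finite.of_injective (N.subtype.subgroupComap B) (by
        intro a b hab
        have := congrArg Subtype.val hab
        exact Subtype.ext (Subtype.ext this))
    have h1 := (h.fperf hp).finite_normal (B.subgroupOf N)
    rw [eq_bot_iff]
    intro b hb
    refine hZ b (hB.1 hb) fun n hn => ?_
    have h2 := h1 (show (⟨b, hB.1 hb⟩ : N) ∈ B.subgroupOf N from hb)
    exact (congrArg Subtype.val ((Subgroup.mem_center_iff.mp h2) ⟨n, hn⟩)).symm
  · -- simple
    have hnt : Nontrivial B := by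
      rw [Subgroup.nontrivial_iff_ne_bot]
      exact hB0
    refine ⟨fun H hH => ?_⟩
    by_cases hb : H = ⊥
    · exact Or.inl hb
    · right
      let A : Subgroup G := H.map B.subtype
      have hAB : A ≤ B := by rintro _ ⟨y, -, rfl⟩; exact y.2
      have hA0 : A ≠ ⊥ := by
        intro he
        apply hb
        rwa [Subgroup.map_eq_bot_iff_of_injective _ B.subtype_injective] at he
      have hAN : NN N A := by
        refine ⟨hAB.trans hB.1, ?_⟩
        have h1 : B ⊔ C ≤ Subgroup.normalizer (A : Set G) := by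
          refine sup_le ?_ ?_
          · intro b hb'
            refine mem_normalizer_of_finOrder (h.tors b) ?_
            rintro _ ⟨y, hy, rfl⟩
            exact ⟨⟨b, hb'⟩ * y * ⟨b, hb'⟩⁻¹, hH.conj_mem y hy _, rfl⟩
          · intro c hc
            refine mem_normalizer_of_finOrder (h.tors c) ?_
            intro a ha
            rw [← hCmem.mp hc a (hAB ha), mul_inv_cancel_right]
            exact ha
        intro n hn a ha
        exact (Subgroup.mem_normalizer_iff.mp (h1 (hNBC hn)) a).mp ha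
      have h2 := h.jn_eq hp hZ hx hxN hAN hA0
      have h3 : B ≤ A := hdec A hAB (hB.1.trans (by rw [← h2]; exact hjnC A hAB))
      apply Subgroup.map_injective B.subtype_injective
      rw [← MonoidHom.range_eq_map, B.range_subtype]
      exact le_antisymm hAB h3
  · rintro ⟨s, hs⟩ hsp
    exact Subtype.ext (h.pp s (hB.1 hs) (hsp.map B.subtype))
  · -- proper subgroups are Chernikov
    intro T hT
    let T' : Subgroup G := T.map B.subtype
    have hT'B : T' ≤ B := by rintro _ ⟨y, -, rfl⟩; exact y.2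
    have hT'ne : ¬ B ≤ T' := by
      intro hle
      apply hT
      apply Subgroup.map_injective B.subtype_injective
      rw [← MonoidHom.range_eq_map, B.range_subtype]
      exact le_antisymm hT'B hle
    let L := jn p x T'
    have hLN : L ≤ N := jn_le (hT'B.trans hB.1)
    have hLne : L ≠ N := by
      intro he
      exact hT'ne (hdec T' hT'B (hB.1.trans (by rw [← he]; exact hjnC T' hT'B)))
    have hLinv := jn_inv hp hpc (hT'B.trans hB.1)
    have hY := h.vch_of_invariant hLN hLne hx hLinv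
    set Y := PP p (L ⊔ zpowers x) with hYdef
    let C' : Subgroup N := C.subgroupOf N
    have hC'n : C'.Normal := by
      refine ⟨?_⟩
      rintro ⟨c, hcN⟩ hc ⟨n, hn⟩
      rw [Subgroup.mem_subgroupOf] at hc ⊢
      change n * c * n⁻¹ ∈ C
      rw [hCmem] at hc ⊢
      intro b hb
      have h1 := hc (n⁻¹ * b * n) (by simpa using hB.2 n⁻¹ (N.inv_mem hn) b hb)
      calc b * (n * c * n⁻¹) = n * ((n⁻¹ * b * n) * c) * n⁻¹ := by group
        _ = n * (c * (n⁻¹ * b * n)) * n⁻¹ := by rw [h1]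
        _ = n * c * n⁻¹ * b := by group
    let Q : Subgroup N := (Y ⊓ L).subgroupOf N
    have hQ : VCh Q := (hY.of_le (inf_le_left : Y ⊓ L ≤ Y)).of_injective
      (N.subtype.subgroupComap (Y ⊓ L)) (by
        intro a b hab
        have := congrArg Subtype.val hab
        exact Subtype.ext (Subtype.ext this))
    let π := QuotientGroup.mk' C'
    have hQm : VCh (Q.map π : Subgroup (N ⧸ C')) := by
      have h1 := hQ.of_surjective (π.comp Q.subtype).rangeRestrict
        (π.comp Q.subtype).rangeRestrict_surjective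
      have h2 : (π.comp Q.subtype).range = Q.map π := by
        rw [MonoidHom.range_comp, Q.range_subtype]
      rw [h2] at h1
      exact h1
    have hmem : ∀ t : T, π ⟨((t : B) : G), hB.1 (t : B).2⟩ ∈ Q.map π := by
      rintro ⟨⟨t, htB⟩, ht⟩
      have htT : t ∈ T' := ⟨⟨t, htB⟩, ht, rfl⟩
      have htL : t ∈ L := le_jn hp htT
      have htLx : t ∈ L ⊔ zpowers x := (le_sup_left : L ≤ L ⊔ zpowers x) htL
      have hxLx : x ∈ L ⊔ zpowers x := (le_sup_right : zpowers x ≤ L ⊔ zpowers x) (mem_zpowers x)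
      have h1 : t * (x * t⁻¹ * x⁻¹) ∈ Y ⊓ L := by
        refine ⟨?_, L.mul_mem htL (hLinv _ (L.inv_mem htL))⟩
        have e : t * (x * t⁻¹ * x⁻¹) = (t * x * t⁻¹) * x⁻¹ := by group
        rw [e]
        exact Y.mul_mem (mem_PP (Subgroup.mul_mem _ (Subgroup.mul_mem _ htLx hxLx)
          (Subgroup.inv_mem _ htLx)) (hx.conj t)) (Y.inv_mem (mem_PP hxLx hx))
      refine ⟨⟨t * (x * t⁻¹ * x⁻¹), hLN h1.2⟩, h1, ?_⟩
      refine QuotientGroup.eq.mpr ?_
      change (t * (x * t⁻¹ * x⁻¹))⁻¹ * t ∈ C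
      have h2 : x * t * x⁻¹ ∈ C := by
        apply hcjC 1 one_pos hp.one_lt
        rw [mem_cj, pow_one]
        have e : x⁻¹ * (x * t * x⁻¹) * x = t := by group
        rw [e]; exact htB
      have e : (t * (x * t⁻¹ * x⁻¹))⁻¹ * t = x * t * x⁻¹ := by group
      rw [e]; exact h2
    let τ : T →* (Q.map π : Subgroup (N ⧸ C')) :=
      { toFun := fun t => ⟨π ⟨((t : B) : G), hB.1 (t : B).2⟩, hmem t⟩
        map_one' := by
          ext
          exact map_one π
        map_mul' := fun a b => by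
          ext
          exact map_mul π ⟨((a : B) : G), hB.1 (a : B).2⟩ ⟨((b : B) : G), hB.1 (b : B).2⟩ }
    refine hQm.of_injective τ ?_
    rintro ⟨⟨a, haB⟩, ha⟩ ⟨⟨b, hbB⟩, hb⟩ hab
    have h1 : π ⟨a, hB.1 haB⟩ = π ⟨b, hB.1 hbB⟩ := congrArg Subtype.val hab
    have h2 := QuotientGroup.eq.mp h1
    have h3 : a⁻¹ * b ∈ C := h2
    have h4 := hBC _ (B.mul_mem (B.inv_mem haB) hbB) h3
    have h5 : a = b := by
      have := congrArg (fun t => a * t) h4
      simpa using this.symm
    subst h5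
    rfl

theorem MinCE.bad {N : Subgroup G} (hp : p.Prime) (h : MinCE p G N)
    (hZ : ∀ c ∈ N, (∀ n ∈ N, c * n = n * c) → c = 1) : ∃ B : Subgroup G, Bad p B := by
  by_cases hs : ∀ R, NN N R → R ≠ ⊥ → R = N
  · exact ⟨N, h.simple_case hp hZ hs⟩
  · push Not at hs
    obtain ⟨R, h1, h2, h3⟩ := hs
    exact h.product_case hp hZ h1 h2 h3

theorem Sec.of_subgroup {G : Type u} [Group G] (H : Subgroup G) : Sec H G :=
  ⟨H, MonoidHom.id H, Function.surjective_id⟩

theorem Sec.of_surjective {S : Type u} [Group S] {G : Type u} [Group G] {Q : Type u} [Group Q]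
    (f : G →* Q) (hf : Function.Surjective f) (h : Sec S Q) : Sec S G := by
  obtain ⟨H, g, hg⟩ := h
  refine ⟨H.comap f, g.comp (f.subgroupComap H), hg.comp ?_⟩
  rintro ⟨y, hy⟩
  obtain ⟨x, rfl⟩ := hf y
  exact ⟨⟨x, hy⟩, rfl⟩

theorem Sec.of_injective {S : Type u} [Group S] {G : Type u} [Group G] {Q : Type u} [Group Q]
    (f : Q →* G) (hf : Function.Injective f) (h : Sec S Q) : Sec S G := by
  obtain ⟨H, g, hg⟩ := h
  refine ⟨H.map f, g.comp (H.equivMapOfInjective f hf).symm.toMonoidHom, hg.comp ?_⟩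
  exact (H.equivMapOfInjective f hf).symm.surjective

theorem MinCE.exists_bad {N : Subgroup G} (hp : p.Prime) (h : MinCE p G N) :
    ∃ (S : Type u) (_ : Group S), Sec S G ∧ Bad p S := by
  have hN := h.nrm
  have hfp := h.fperf hp
  have htN := tors_sub h.tors N
  let Z : Subgroup G := (Subgroup.center N).map N.subtype
  have hZn : Z.Normal := inferInstanceAs ((Subgroup.center N).map N.subtype).Normal
  let π := QuotientGroup.mk' Z
  have hπ : Function.Surjective π := QuotientGroup.mk'_surjective Z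
  -- the centre of `N / Z` is trivial
  have hZ : ∀ c ∈ N.map π, (∀ n ∈ N.map π, c * n = n * c) → c = 1 := by
    rintro _ ⟨c, hc, rfl⟩ hcomm
    have h1 : (⟨c, hc⟩ : N) ∈ Subgroup.center N := by
      refine hfp.z2 htN ?_
      rintro ⟨l, hl⟩
      have h2 := hcomm (π l) ⟨l, hl, rfl⟩
      have h3 : π (c * l * c⁻¹ * l⁻¹) = 1 := by
        rw [map_mul, map_mul, map_mul, map_inv, map_inv, h2]
        group
      obtain ⟨z, hz, hz'⟩ := (QuotientGroup.eq_one_iff _).mp h3
      have h4 : z = ⟨c, hc⟩ * ⟨l, hl⟩ * ⟨c, hc⟩⁻¹ * ⟨l, hl⟩⁻¹ := Subtype.ext hz'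
      rw [← h4]; exact hz
    exact (QuotientGroup.eq_one_iff _).mpr ⟨_, h1, rfl⟩
  have hnv : ¬ VCh (G ⧸ Z) := by
    intro hv
    apply h.not_comm hp
    have h1 : VCh (N.map π : Subgroup (G ⧸ Z)) := hv.sub _
    have h2 : FPerf (N.map π : Subgroup (G ⧸ Z)) := by
      have h3 := hfp.of_surjective (π.comp N.subtype).rangeRestrict
        (π.comp N.subtype).rangeRestrict_surjective
      have h4 : (π.comp N.subtype).range = N.map π := by
        rw [MonoidHom.range_comp, N.range_subtype]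
      rw [h4] at h3
      exact h3
    have h3 := h2.comm_of_vch h1
    intro a ha b hb
    have h4 : π a = 1 := hZ _ ⟨a, ha, rfl⟩ fun n hn =>
      congrArg Subtype.val (h3 ⟨π a, ⟨a, ha, rfl⟩⟩ ⟨n, hn⟩)
    obtain ⟨z, hz, hz'⟩ := (QuotientGroup.eq_one_iff _).mp h4
    have h5 := (Subgroup.mem_center_iff.mp hz) ⟨b, hb⟩
    have h6 : b * (z : G) = z * b := congrArg Subtype.val h5
    have h7 : (z : G) = a := hz'
    rw [h7] at h6
    exact h6.symm
  have hQ := h.quot hp Z hnv
  obtain ⟨B, hB⟩ := hQ.bad hp hZ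
  exact ⟨B, inferInstance, Sec.of_surjective π hπ (Sec.of_subgroup B), hB⟩

end Run7.h806
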