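import Pool.Agent.Run7.h806.Abel

set_option autoImplicit false

namespace Run7.h806

open Subgroup
open scoped Pointwise

universe u v

variable {p : ℕ} {G : Type u} [Group G]

/-- conjugate subgroup -/
def cj (g : G) (U : Subgroup G) : Subgroup G := U.map (MulAut.conj g).toMonoidHom

theorem mem_cj {g : G} {U : Subgroup G} {y : G} : y ∈ cj g U ↔ g⁻¹ * y * g ∈ U := by
  constructor
  · rintro ⟨u, hu, rfl⟩
    have : g⁻¹ * (MulAut.conj g).toMonoidHom u * g = u := by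
      change g⁻¹ * (g * u * g⁻¹) * g = u
      group
    rw [this]; exact hu
  · intro h
    refine ⟨_, h, ?_⟩
    change g * (g⁻¹ * y * g) * g⁻¹ = y
    group

theorem conj_mem_cj {g u : G} {U : Subgroup G} (h : u ∈ U) : g * u * g⁻¹ ∈ cj g U := ⟨u, h, rfl⟩

/-- A finite subgroup family contradiction à la B. H. Neumann: some nontrivial element of `U`
has centralizer of finite index, or some conjugate of `U` avoids the finite set `T`. -/
theorem neumann (U : Subgroup G) [Finite U] (T : Set G) (hT : T.Finite)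
    (hno : ∀ u ∈ U, u ≠ 1 → ¬ (Subgroup.centralizer {u} : Subgroup G).FiniteIndex) :
    ∃ g : G, ∀ u ∈ U, u ≠ 1 → g * u * g⁻¹ ∉ T := by
  classical
  by_contra hcon
  have hcon' : ∀ g : G, ∃ u, u ∈ U ∧ u ≠ 1 ∧ g * u * g⁻¹ ∈ T := by
    intro g
    by_contra h
    exact hcon ⟨g, fun u hu hu1 huT => h ⟨u, hu, hu1, huT⟩⟩
  have hUf : (U : Set G).Finite := Set.toFinite _
  let s : Finset (G × G) := (hUf.toFinset ×ˢ hT.toFinset).filter
    (fun c => c.1 ≠ 1 ∧ ∃ g : G, g * c.1 * g⁻¹ = c.2)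
  let γ : G × G → G := fun c => if h : ∃ g : G, g * c.1 * g⁻¹ = c.2 then h.choose else 1
  have hcover : ⋃ c ∈ s, γ c • ((Subgroup.centralizer {c.1} : Subgroup G) : Set G) = Set.univ := by
    rw [Set.eq_univ_iff_forall]
    intro g
    obtain ⟨u, hu, hu1, huT⟩ := hcon' g
    have hex : ∃ g' : G, g' * u * g'⁻¹ = g * u * g⁻¹ := ⟨g, rfl⟩
    rw [Set.mem_iUnion₂]
    refine ⟨(u, g * u * g⁻¹), ?_, ?_⟩
    · rw [Finset.mem_filter, Finset.mem_product]
      exact ⟨⟨hUf.mem_toFinset.mpr hu, hT.mem_toFinset.mpr huT⟩, hu1, hex⟩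
    · rw [Set.mem_smul_set_iff_inv_smul_mem, SetLike.mem_coe,
        Subgroup.mem_centralizer_singleton_iff]
      have hγ : γ (u, g * u * g⁻¹) = hex.choose := dif_pos hex
      rw [hγ]
      have hs := hex.choose_spec
      set c := hex.choose with hc
      simp only [smul_eq_mul]
      have h1 : c * u * c⁻¹ = g * u * g⁻¹ := hs
      calc c⁻¹ * g * u = c⁻¹ * (g * u * g⁻¹) * g := by group
        _ = c⁻¹ * (c * u * c⁻¹) * g := by rw [h1]
        _ = u * (c⁻¹ * g) := by group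
  obtain ⟨c, hc, hfi⟩ := Subgroup.exists_finiteIndex_of_leftCoset_cover
    (H := fun c : G × G => (Subgroup.centralizer {c.1} : Subgroup G)) (g := γ) hcover
  rw [Finset.mem_filter, Finset.mem_product] at hc
  exact hno c.1 (hUf.mem_toFinset.mp hc.1.1) hc.2.1 hfi

theorem finite_sup {A B V : Subgroup G} (hA : Finite A) (hB : Finite B) (hAV : A ≤ V)
    (hBn : ∀ v ∈ V, ∀ b ∈ B, v * b * v⁻¹ ∈ B) : Finite (A ⊔ B : Subgroup G) := by
  have h1 : A ≤ Subgroup.normalizer (B : Set G) := by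
    intro a ha
    rw [Subgroup.mem_normalizer_iff]
    intro b
    refine ⟨hBn a (hAV ha) b, fun hb => ?_⟩
    have := hBn a⁻¹ (V.inv_mem (hAV ha)) _ hb
    have e : a⁻¹ * (a * b * a⁻¹) * a⁻¹⁻¹ = b := by group
    rwa [e] at this
  have h2 := Subgroup.coe_mul_of_left_le_normalizer_right A B h1
  have h3 : ((A ⊔ B : Subgroup G) : Set G).Finite := by
    rw [h2]
    exact Set.Finite.mul (Set.toFinite _) (Set.toFinite _)
  exact h3

theorem conj_sup {A B V : Subgroup G} (hAn : ∀ v ∈ V, ∀ a ∈ A, v * a * v⁻¹ ∈ A)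
    (hBn : ∀ v ∈ V, ∀ b ∈ B, v * b * v⁻¹ ∈ B) :
    ∀ v ∈ V, ∀ c ∈ A ⊔ B, v * c * v⁻¹ ∈ A ⊔ B := by
  intro v hv
  have h1 : A ⊔ B ≤ (A ⊔ B).comap (MulAut.conj v).toMonoidHom := by
    refine sup_le ?_ ?_
    · intro a ha
      exact (le_sup_left : A ≤ A ⊔ B) (hAn v hv a ha)
    · intro b hb
      exact (le_sup_right : B ≤ A ⊔ B) (hBn v hv b hb)
  exact fun c hc => h1 hc

theorem inf_step {A B S T V : Subgroup G} (hBn : ∀ v ∈ V, ∀ b ∈ B, v * b * v⁻¹ ∈ B)
    (hAV : A ≤ V) (hBT : B ≤ T) (hST : S ≤ T) (hAT : A ⊓ T = ⊥) (hSB : S ⊓ B = ⊥) :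
    S ⊓ (A ⊔ B) = ⊥ := by
  rw [eq_bot_iff]
  rintro t ⟨ht1, ht2⟩
  have h1 : A ≤ Subgroup.normalizer (B : Set G) := by
    intro a ha
    rw [Subgroup.mem_normalizer_iff]
    intro b
    refine ⟨hBn a (hAV ha) b, fun hb => ?_⟩
    have := hBn a⁻¹ (V.inv_mem (hAV ha)) _ hb
    have e : a⁻¹ * (a * b * a⁻¹) * a⁻¹⁻¹ = b := by group
    rwa [e] at this
  have h2 := Subgroup.coe_mul_of_left_le_normalizer_right A B h1
  have h3 : t ∈ ((A ⊔ B : Subgroup G) : Set G) := ht2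
  rw [h2] at h3
  obtain ⟨u, hu, w, hw, rfl⟩ := h3
  simp only at ht1
  have h4 : u ∈ T := by
    have := T.mul_mem (hST ht1) (T.inv_mem (hBT hw))
    rwa [mul_inv_cancel_right] at this
  have h5 : u ∈ A ⊓ T := ⟨hu, h4⟩
  rw [hAT, Subgroup.mem_bot] at h5
  have h6 : w ∈ S ⊓ B := by
    refine ⟨?_, hw⟩
    have h7 : u * w ∈ S := ht1
    rwa [h5, one_mul] at h7
  rw [hSB, Subgroup.mem_bot] at h6
  rw [Subgroup.mem_bot, h5, h6]
  exact one_mul 1

/-- the main step -/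
theorem centralizes (ht : ∀ g : G, IsOfFinOrder g) (hpm : PMin p G) (V U : Subgroup G)
    [hV : V.Normal] [Finite U] (hUV : U ≤ V) (hUn : ∀ v ∈ V, ∀ u ∈ U, v * u * v⁻¹ ∈ U)
    (hno : ∀ u ∈ U, u ≠ 1 → ¬ (Subgroup.centralizer {u} : Subgroup G).FiniteIndex)
    {x : G} (hx : PElt p x) (hxU : ∀ v ∈ V, v * x * v⁻¹ * x⁻¹ ∈ U) :
    ∀ v ∈ V, x * v = v * x := by
  -- facts on the conjugates of `U`
  have hcjV : ∀ g, cj g U ≤ V := by
    rintro g _ ⟨u, hu, rfl⟩
    exact hV.conj_mem u (hUV hu) g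
  have hcjn : ∀ g, ∀ v ∈ V, ∀ u ∈ cj g U, v * u * v⁻¹ ∈ cj g U := by
    rintro g v hv _ ⟨u, hu, rfl⟩
    have h1 := hUn (g⁻¹ * v * g) (by simpa using hV.conj_mem v hv g⁻¹) u hu
    rw [mem_cj]
    have e : g⁻¹ * (v * (MulAut.conj g).toMonoidHom u * v⁻¹) * g =
        g⁻¹ * v * g * u * (g⁻¹ * v * g)⁻¹ := by
      change g⁻¹ * (v * (g * u * g⁻¹) * v⁻¹) * g = _
      group
    rw [e]; exact h1
  have hcjx : ∀ g, ∀ v ∈ V, v * (g * x * g⁻¹) * v⁻¹ * (g * x * g⁻¹)⁻¹ ∈ cj g U := by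
    intro g v hv
    rw [mem_cj]
    have h1 := hxU (g⁻¹ * v * g) (by simpa using hV.conj_mem v hv g⁻¹)
    have e : g⁻¹ * (v * (g * x * g⁻¹) * v⁻¹ * (g * x * g⁻¹)⁻¹) * g =
        g⁻¹ * v * g * x * (g⁻¹ * v * g)⁻¹ * x⁻¹ := by group
    rw [e]; exact h1
  have hcjf : ∀ g, Finite (cj g U) := fun g =>
    Finite.of_equiv U (U.equivMapOfInjective _ (MulAut.conj g).injective).toEquiv
  -- the sequence
  let St := {T : Subgroup G // Finite T ∧ ∀ v ∈ V, ∀ t ∈ T, v * t * v⁻¹ ∈ T}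
  have hch : ∀ T : St, ∃ g : G, cj g U ⊓ T.1 = ⊥ := by
    rintro ⟨T, hTf, hTn⟩
    obtain ⟨g, hg⟩ := neumann U (T : Set G) (Set.toFinite _) hno
    refine ⟨g, ?_⟩
    rw [eq_bot_iff]
    rintro _ ⟨⟨u, hu, rfl⟩, hT⟩
    by_contra hne
    refine hg u hu ?_ hT
    rintro rfl
    exact hne (map_one _)
  choose γ hγ using hch
  let nxt : St → St := fun T => ⟨cj (γ T) U ⊔ T.1, finite_sup (V := V) (hcjf _) T.2.1 (hcjV _) T.2.2,
    conj_sup (hcjn _) T.2.2⟩
  let T0 : St := ⟨⊥, inferInstance, by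
    intro v _ t ht
    rw [Subgroup.mem_bot] at ht ⊢
    rw [ht, mul_one, mul_inv_cancel]⟩
  let T : ℕ → St := fun n => Nat.rec T0 (fun _ S => nxt S) n
  let g : ℕ → G := fun n => γ (T n)
  have hTsucc : ∀ n, (T (n + 1)).1 = cj (g n) U ⊔ (T n).1 := fun n => rfl
  have hTd : ∀ n, cj (g n) U ⊓ (T n).1 = ⊥ := fun n => hγ (T n)
  have hTmono : ∀ m n, m ≤ n → (T m).1 ≤ (T n).1 := by
    intro m n hmn
    induction hmn with
    | refl => exact le_rfl
    | step _ ih =>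
      refine ih.trans ?_
      rw [Nat.succ_eq_add_one, hTsucc]
      exact le_sup_right
  have hgT : ∀ i n, i < n → cj (g i) U ≤ (T n).1 := by
    intro i n hin
    refine le_trans ?_ (hTmono (i + 1) n hin)
    rw [hTsucc]
    exact le_sup_left
  -- the descending chain
  let X : ℕ → G := fun i => g i * x * (g i)⁻¹
  let Y : ℕ → Subgroup G := fun n => closure {y | ∃ i, n ≤ i ∧ y = X i}
  obtain ⟨n, hn⟩ := hpm.stab Y (fun n => closure_mono (by
      rintro y ⟨i, hi, rfl⟩; exact ⟨i, by omega, rfl⟩))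
    (fun n => PP_closure _ (by rintro y ⟨i, hi, rfl⟩; exact hx.conj _))
  have hXn : X n ∈ Y (n + 1) := by
    rw [← hn]; exact subset_closure ⟨n, le_rfl, rfl⟩
  -- the group generated by later conjugates
  let W : ℕ → Subgroup G := fun k => Nat.rec (⊥ : Subgroup G) (fun j S => cj (g (n + 1 + j)) U ⊔ S) k
  have hWsucc : ∀ k, W (k + 1) = cj (g (n + 1 + k)) U ⊔ W k := fun k => rfl
  have hWmono : Monotone W := monotone_nat_of_le_succ fun k => by rw [hWsucc]; exact le_sup_right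
  have hWn : ∀ k, ∀ v ∈ V, ∀ w ∈ W k, v * w * v⁻¹ ∈ W k := by
    intro k
    induction k with
    | zero => exact T0.2.2
    | succ k ih => rw [hWsucc]; exact conj_sup (hcjn _) ih
  have hWT : ∀ k, W k ≤ (T (n + 1 + k)).1 := by
    intro k
    induction k with
    | zero => exact bot_le
    | succ k ih =>
      rw [hWsucc]
      refine sup_le (hgT (n + 1 + k) (n + 1 + (k + 1)) (by omega))
        (ih.trans (hTmono (n + 1 + k) (n + 1 + (k + 1)) (by omega)))
  have hWV : ∀ k, W k ≤ V := by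
    intro k
    induction k with
    | zero => exact bot_le
    | succ k ih => rw [hWsucc]; exact sup_le (hcjV _) ih
  have hWd : ∀ k, (T (n + 1)).1 ⊓ W k = ⊥ := by
    intro k
    induction k with
    | zero => exact inf_bot_eq _
    | succ k ih =>
      rw [hWsucc]
      exact inf_step (hWn k) (hcjV _) (hWT k) (hTmono (n + 1) (n + 1 + k) (by omega)) (hTd _) ih
  let R : Subgroup G := ⨆ k, W k
  have hRmem : ∀ {r : G}, r ∈ R ↔ ∃ k, r ∈ W k := by
    intro r
    exact Subgroup.mem_iSup_of_directed hWmono.directed_le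
  have hRV : R ≤ V := iSup_le hWV
  have hRd : ∀ r, r ∈ cj (g n) U → r ∈ R → r = 1 := by
    intro r h1 h2
    obtain ⟨k, hk⟩ := hRmem.mp h2
    have h3 : r ∈ (T (n + 1)).1 ⊓ W k := ⟨hgT n (n + 1) (Nat.lt_succ_self n) h1, hk⟩
    rw [hWd] at h3
    exact h3
  -- commutators with later conjugates lie in `R`
  have hmulD : ∀ y z : G, (∀ v ∈ V, v * y * v⁻¹ * y⁻¹ ∈ R) → (∀ v ∈ V, v * z * v⁻¹ * z⁻¹ ∈ R) →
      ∀ v ∈ V, v * (y * z) * v⁻¹ * (y * z)⁻¹ ∈ R := by
    intro y z hy hz v hv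
    have h1 := hy v hv
    have h2 := hz v hv
    have h3 : ∀ r ∈ R, y * r * y⁻¹ ∈ R := by
      intro r hr
      have h4 := hy r⁻¹ (V.inv_mem (hRV hr))
      have h5 := R.mul_mem hr h4
      have e : r * (r⁻¹ * y * r⁻¹⁻¹ * y⁻¹) = y * r * y⁻¹ := by group
      rwa [e] at h5
    have e : v * (y * z) * v⁻¹ * (y * z)⁻¹ =
        (v * y * v⁻¹ * y⁻¹) * (y * (v * z * v⁻¹ * z⁻¹) * y⁻¹) := by group
    rw [e]
    exact R.mul_mem h1 (h3 _ h2)
  have hone : ∀ v ∈ V, v * (1 : G) * v⁻¹ * (1 : G)⁻¹ ∈ R := by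
    intro v _
    have : v * (1 : G) * v⁻¹ * (1 : G)⁻¹ = 1 := by group
    rw [this]; exact R.one_mem
  have hpowD : ∀ y : G, (∀ v ∈ V, v * y * v⁻¹ * y⁻¹ ∈ R) → ∀ k : ℕ,
      ∀ v ∈ V, v * (y ^ k) * v⁻¹ * (y ^ k)⁻¹ ∈ R := by
    intro y hy k
    induction k with
    | zero => rw [pow_zero]; exact hone
    | succ k ih => rw [pow_succ]; exact hmulD _ _ ih hy
  have hYD : ∀ y ∈ Y (n + 1), ∀ v ∈ V, v * y * v⁻¹ * y⁻¹ ∈ R := by
    intro y hy
    refine Subgroup.closure_induction (p := fun y _ => ∀ v ∈ V, v * y * v⁻¹ * y⁻¹ ∈ R)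
      ?_ hone (fun a b _ _ => hmulD a b) ?_ hy
    · rintro _ ⟨i, hi, rfl⟩ v hv
      obtain ⟨k, rfl⟩ : ∃ k, i = n + 1 + k := ⟨i - (n + 1), by omega⟩
      rw [hRmem]
      refine ⟨k + 1, ?_⟩
      rw [hWsucc]
      exact (le_sup_left : cj (g (n + 1 + k)) U ≤ cj (g (n + 1 + k)) U ⊔ W k)
        (hcjx (g (n + 1 + k)) v hv)
    · intro a _ ha
      obtain ⟨m, hm, ham⟩ := isOfFinOrder_iff_pow_eq_one.mp (ht a)
      have h1 : a⁻¹ = a ^ (m - 1) := by
        rw [inv_eq_iff_mul_eq_one, ← pow_succ', Nat.sub_add_cancel hm, ham]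
      rw [h1]
      exact hpowD a ha (m - 1)
  have hcen : ∀ v ∈ V, v * X n * v⁻¹ * (X n)⁻¹ = 1 := fun v hv =>
    hRd _ (hcjx (g n) v hv) (hYD _ hXn v hv)
  intro v hv
  have h1 := hcen (g n * v * (g n)⁻¹) (hV.conj_mem v hv _)
  have e : g n * v * (g n)⁻¹ * X n * (g n * v * (g n)⁻¹)⁻¹ * (X n)⁻¹ =
      g n * (v * x * v⁻¹ * x⁻¹) * (g n)⁻¹ := by
    change g n * v * (g n)⁻¹ * (g n * x * (g n)⁻¹) * (g n * v * (g n)⁻¹)⁻¹ *
      (g n * x * (g n)⁻¹)⁻¹ = _
    group
  rw [e] at h1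
  have h2 : v * x * v⁻¹ * x⁻¹ = 1 := by
    have := congrArg (fun t => (g n)⁻¹ * t * g n) h1
    simpa [mul_assoc] using this
  have h3 := congrArg (fun t => t * x * v) h2
  simpa using h3.symm

theorem MinCE.centralizer_top {N : Subgroup G} (hp : p.Prime) (h : MinCE p G N) {x : G}
    (hxN : N ⊔ zpowers x = ⊤) (V : Subgroup G) [hV : V.Normal]
    (hc : ∀ v ∈ V, x * v = v * x) (g : G) : ∀ v ∈ V, v * g = g * v := by
  have hN := h.nrm
  let C : Subgroup G := Subgroup.centralizer (V : Set G)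
  have hCn : C.Normal := by
    refine ⟨fun c hc g => ?_⟩
    rw [Subgroup.mem_centralizer_iff] at hc ⊢
    intro v hv
    have h1 := hc (g⁻¹ * v * g) (by simpa using hV.conj_mem v hv g⁻¹)
    calc v * (g * c * g⁻¹) = g * ((g⁻¹ * v * g) * c) * g⁻¹ := by group
      _ = g * (c * (g⁻¹ * v * g)) * g⁻¹ := by rw [h1]
      _ = g * c * g⁻¹ * v := by group
  have hxC : x ∈ C := by
    rw [Subgroup.mem_centralizer_iff]
    exact fun v hv => (hc v hv).symm
  have hNC : N ⊔ C = ⊤ := by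
    rw [eq_top_iff, ← hxN]
    refine sup_le_sup_left ?_ N
    rw [zpowers_le]; exact hxC
  have hCt : (⊤ : Subgroup G) ≤ C := by
    rw [← h.gen, PP, closure_le]
    rintro y ⟨-, hy⟩
    have hy' : y ∈ ((N ⊔ C : Subgroup G) : Set G) := by rw [hNC]; trivial
    rw [Subgroup.normal_mul] at hy'
    obtain ⟨n, hn, c, hcC, rfl⟩ := hy'
    simp only at hy ⊢
    have h1 : PElt p (QuotientGroup.mk' C n) := by
      have h2 := hy.map (QuotientGroup.mk' C)
      rw [map_mul, show QuotientGroup.mk' C c = 1 from (QuotientGroup.eq_one_iff _).mpr hcC,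
        mul_one] at h2
      exact h2
    obtain ⟨n', hn', h2, h3⟩ := lift_pelt hp (QuotientGroup.mk' C) (h.tors n) h1
    have h4 : n' ∈ N := by
      have : zpowers n ≤ N := by rw [zpowers_le]; exact hn
      exact this hn'
    rw [h.pp n' h4 h2, map_one] at h3
    exact C.mul_mem ((QuotientGroup.eq_one_iff _).mp h3.symm) hcC
  exact (Subgroup.mem_centralizer_iff.mp (hCt (Subgroup.mem_top g)))

theorem MinCE.key {N : Subgroup G} (hp : p.Prime) (h : MinCE p G N)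
    (hZ : ∀ c ∈ N, (∀ n ∈ N, c * n = n * c) → c = 1) {x : G} (hx : PElt p x)
    (hxN : N ⊔ zpowers x = ⊤) (V U : Subgroup G) [hV : V.Normal] [Finite U] (hVN : V ≤ N)
    (hUV : U ≤ V) (hUn : ∀ v ∈ V, ∀ u ∈ U, v * u * v⁻¹ ∈ U)
    (hxU : ∀ v ∈ V, v * x * v⁻¹ * x⁻¹ ∈ U) : V = ⊥ := by
  have hN := h.nrm
  have hno : ∀ u ∈ U, u ≠ 1 → ¬ (Subgroup.centralizer {u} : Subgroup G).FiniteIndex := by
    intro u hu hu1 hfi
    apply hu1
    refine hZ u (hVN (hUV hu)) ?_
    have h1 := h.fperf hp ((Subgroup.centralizer {u}).subgroupOf N) (finiteIndex_comap _ _ hfi)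
    intro n hn
    have h2 : (⟨n, hn⟩ : N) ∈ (Subgroup.centralizer {u}).subgroupOf N := by rw [h1]; trivial
    exact (Subgroup.mem_centralizer_singleton_iff.mp h2).symm
  have hc := centralizes h.tors h.pm V U hUV hUn hno hx hxU
  rw [eq_bot_iff]
  intro v hv
  exact hZ v (hVN hv) fun n _ => h.centralizer_top hp hxN V hc n v hv

theorem MinCE.no_normal {N : Subgroup G} (hp : p.Prime) (h : MinCE p G N)
    (hZ : ∀ c ∈ N, (∀ n ∈ N, c * n = n * c) → c = 1) (M : Subgroup G) [hM : M.Normal]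
    (hMN : M ≤ N) (hne : M ≠ N) : M = ⊥ := by
  have hN := h.nrm
  obtain ⟨x, hx, hxN⟩ := h.exists_gen hp N h.fi h.pp
  have hY := h.vch_of_invariant hMN hne hx (fun l hl => hM.conj_mem l hl x)
  set Y := PP p (M ⊔ zpowers x) with hYdef
  have hYn : ∀ g ∈ M ⊔ zpowers x, ∀ y ∈ Y, g * y * g⁻¹ ∈ Y := fun g hg y hy =>
    PP_conj_mem (fun h hh => Subgroup.mul_mem _ (Subgroup.mul_mem _ hg hh)
      (Subgroup.inv_mem _ hg)) hy
  have hxY : ∀ v ∈ M, v * x * v⁻¹ * x⁻¹ ∈ Y ⊓ M := by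
    intro v hv
    have hv' : v ∈ M ⊔ zpowers x := (le_sup_left : M ≤ M ⊔ zpowers x) hv
    have hx' : x ∈ M ⊔ zpowers x := (le_sup_right : zpowers x ≤ M ⊔ zpowers x) (mem_zpowers x)
    refine ⟨?_, ?_⟩
    · have h1 : x ∈ Y := mem_PP hx' hx
      exact Y.mul_mem (hYn v hv' x h1) (Y.inv_mem h1)
    · have e : v * x * v⁻¹ * x⁻¹ = v * (x * v⁻¹ * x⁻¹) := by group
      rw [e]
      exact M.mul_mem hv (hM.conj_mem _ (M.inv_mem hv) x)
  have hKn : ∀ m ∈ M, ∀ k ∈ Y ⊓ M, m * k * m⁻¹ ∈ Y ⊓ M := by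
    rintro m hm k ⟨hk1, hk2⟩
    exact ⟨hYn m ((le_sup_left : M ≤ M ⊔ zpowers x) hm) k hk1, hM.conj_mem k hk2 m⟩
  have hK : VCh (Y ⊓ M : Subgroup G) := hY.of_le inf_le_left
  -- the general conclusion for normal subgroups `V ≤ M` with `V ∩ K` finite
  have hgen : ∀ V : Subgroup G, V.Normal → V ≤ M → Finite (V ⊓ (Y ⊓ M) : Subgroup G) → V = ⊥ := by
    intro V hV hVM hfin
    refine h.key hp hZ hx hxN V (V ⊓ (Y ⊓ M)) (hVM.trans hMN) inf_le_left ?_ ?_
    · rintro v hv u ⟨hu1, hu2⟩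
      exact ⟨hV.conj_mem u hu1 v, hKn v (hVM hv) u hu2⟩
    · intro v hv
      refine ⟨?_, hxY v (hVM hv)⟩
      have e : v * x * v⁻¹ * x⁻¹ = v * (x * v⁻¹ * x⁻¹) := by group
      rw [e]
      exact V.mul_mem hv (hV.conj_mem _ (V.inv_mem hv) x)
  -- the divisible part of `K`
  let K' : Subgroup M := (Y ⊓ M).subgroupOf M
  have hK'n : K'.Normal := by
    refine ⟨?_⟩
    rintro ⟨k, hk⟩ hk' ⟨m, hm⟩
    exact hKn m hm k hk'
  have hK'V : VCh K' := hK.of_injective (M.subtype.subgroupComap (Y ⊓ M)) (by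
      intro a b hab
      have := congrArg Subtype.val hab
      exact Subtype.ext (Subtype.ext this))
  obtain ⟨D0, hDf, hDc, hDp, hDa⟩ := exists_fres hK'V
  by_cases hD0 : D0 = ⊥
  · refine hgen M hM le_rfl ?_
    have h1 : Finite K' := by
      rw [hD0] at hDf
      have : Finite (K' ⧸ (⊥ : Subgroup K')) := inferInstance
      exact Finite.of_equiv _ (QuotientGroup.quotientBot (G := K')).toEquiv
    have h2 : Finite (K'.map M.subtype : Subgroup G) :=
      Finite.of_equiv K' (K'.equivMapOfInjective _ M.subtype_injective).toEquiv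
    have h3 : K'.map M.subtype = Y ⊓ M := by
      rw [Subgroup.map_subgroupOf_eq_of_le inf_le_right]
    rw [h3] at h2
    exact Finite.of_injective (Subgroup.inclusion (inf_le_right : M ⊓ (Y ⊓ M) ≤ Y ⊓ M))
      (Subgroup.inclusion_injective _)
  · exfalso
    let D1 : Subgroup M := D0.map K'.subtype
    have hD1n : D1.Normal := inferInstanceAs (D0.map K'.subtype).Normal
    let D : Subgroup G := D1.map M.subtype
    have hDM : D ≤ M := by rintro _ ⟨d, -, rfl⟩; exact d.2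
    have hDK : D ≤ Y ⊓ M := by
      rintro _ ⟨_, ⟨d, -, rfl⟩, rfl⟩
      exact d.2
    have hDn : ∀ m ∈ M, ∀ d ∈ D, m * d * m⁻¹ ∈ D := by
      rintro m hm _ ⟨d, hd, rfl⟩
      exact ⟨⟨m, hm⟩ * d * ⟨m, hm⟩⁻¹, hD1n.conj_mem d hd _, rfl⟩
    have hDcomm : ∀ a ∈ D, ∀ b ∈ D, a * b = b * a := by
      rintro _ ⟨_, ⟨a, ha, rfl⟩, rfl⟩ _ ⟨_, ⟨b, hb, rfl⟩, rfl⟩
      have := hDa a ha b hb
      exact congrArg (fun t : K' => ((t : M) : G)) this
    have hDperf : FPerf D := by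
      let f : D0 →* D :=
        { toFun := fun d => ⟨((d : K') : M), ⟨_, ⟨d, d.2, rfl⟩, rfl⟩⟩
          map_one' := rfl
          map_mul' := fun _ _ => rfl }
      refine hDp.of_surjective f ?_
      rintro ⟨_, ⟨_, ⟨d, hd, rfl⟩, rfl⟩⟩
      exact ⟨⟨d, hd⟩, rfl⟩
    -- a prime `q` with `D[q] ≠ 1`
    obtain ⟨d, hd, hd1⟩ : ∃ d ∈ D, d ≠ 1 := by
      obtain ⟨d, hd, hd1⟩ : ∃ d ∈ D0, d ≠ 1 := by
        by_contra hcon
        apply hD0
        rw [eq_bot_iff]
        intro a ha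
        by_contra hne
        exact hcon ⟨a, ha, hne⟩
      refine ⟨((d : M) : G), ⟨_, ⟨d, hd, rfl⟩, rfl⟩, ?_⟩
      intro he
      exact hd1 (Subtype.ext (Subtype.ext he))
    have ho : orderOf d ≠ 1 := fun he => hd1 (orderOf_eq_one_iff.mp he)
    obtain ⟨q, hq, m, hm⟩ := Nat.exists_prime_and_dvd ho
    have hm0 : 0 < m := by
      rcases Nat.eq_zero_or_pos m with h3 | h3
      · have := (h.tors d).orderOf_pos
        rw [h3, mul_zero] at hm; omega
      · exact h3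
    have he1 : d ^ m ≠ 1 := by
      intro he
      have h3 := Nat.le_of_dvd hm0 (orderOf_dvd_of_pow_eq_one he)
      have := hq.two_le
      nlinarith
    let E : Subgroup G := tor D hDcomm q
    have hdE : d ^ m ∈ E := by
      refine ⟨D.pow_mem hd m, ?_⟩
      rw [← pow_mul, mul_comm, ← hm, pow_orderOf_eq_one]
    have hEf : Finite E := finite_tor D hDcomm (hK.of_le hDK).dcc hq.pos
    have hEM : E ≤ M := fun e he => hDM he.1
    have hEn : ∀ m ∈ M, ∀ e ∈ E, m * e * m⁻¹ ∈ E := by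
      rintro m hm e ⟨he1, he2⟩
      exact ⟨hDn m hm e he1, by rw [conj_pow, he2, mul_one, mul_inv_cancel]⟩
    -- conjugates of `E` commute
    have hDE : ∀ g : G, ∀ a ∈ D, ∀ e ∈ cj g E, a * e = e * a := by
      intro g a ha
      have hcf : Finite (cj g E) :=
        Finite.of_equiv E (E.equivMapOfInjective _ (MulAut.conj g).injective).toEquiv
      have hcn : ∀ m ∈ M, ∀ e ∈ cj g E, m * e * m⁻¹ ∈ cj g E := by
        rintro m hm _ ⟨e, he, rfl⟩
        rw [mem_cj]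
        have h1 := hEn (g⁻¹ * m * g) (by simpa using hM.conj_mem m hm g⁻¹) e he
        have e1 : g⁻¹ * (m * (MulAut.conj g).toMonoidHom e * m⁻¹) * g =
            g⁻¹ * m * g * e * (g⁻¹ * m * g)⁻¹ := by
          change g⁻¹ * (m * (g * e * g⁻¹) * m⁻¹) * g = _
          group
        rw [e1]; exact h1
      let act : D →* Equiv.Perm (cj g E) :=
        { toFun := fun a =>
            { toFun := fun e => ⟨a * e * (a : G)⁻¹, hcn a (hDM a.2) e e.2⟩
              invFun := fun e => ⟨(a : G)⁻¹ * e * a, by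
                have := hcn (a : G)⁻¹ (M.inv_mem (hDM a.2)) e e.2
                rwa [inv_inv] at this⟩
              left_inv := fun e => Subtype.ext (by
                change (a : G)⁻¹ * (a * e * (a : G)⁻¹) * a = e
                group)
              right_inv := fun e => Subtype.ext (by
                change a * ((a : G)⁻¹ * e * a) * (a : G)⁻¹ = e
                group) }
          map_one' := by
            ext e
            change (1 : G) * e * (1 : G)⁻¹ = e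
            group
          map_mul' := fun a b => by
            ext e
            change ((a : G) * b) * e * ((a : G) * b)⁻¹ = a * (b * e * (b : G)⁻¹) * (a : G)⁻¹
            group }
      have hact := hDperf.hom_finite act
      intro e he
      have h1 := congrArg (fun t : cj g E => (t : G))
        (DFunLike.congr_fun (DFunLike.congr_fun hact ⟨a, ha⟩) ⟨e, he⟩)
      have h2 : a * e * a⁻¹ = e := h1
      calc a * e = a * e * a⁻¹ * a := by group
        _ = e * a := by rw [h2]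
    have hEE : ∀ g g' : G, ∀ a ∈ cj g E, ∀ b ∈ cj g' E, a * b = b * a := by
      rintro g g' _ ⟨a, ha, rfl⟩ b hb
      have hb' : g⁻¹ * b * g ∈ cj (g⁻¹ * g') E := by
        rw [mem_cj] at hb ⊢
        have : (g⁻¹ * g')⁻¹ * (g⁻¹ * b * g) * (g⁻¹ * g') = g'⁻¹ * b * g' := by group
        rw [this]; exact hb
      have h1 := hDE (g⁻¹ * g') a ha.1 _ hb'
      change g * a * g⁻¹ * b = b * (g * a * g⁻¹)
      calc g * a * g⁻¹ * b = g * (a * (g⁻¹ * b * g)) * g⁻¹ := by group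
        _ = g * ((g⁻¹ * b * g) * a) * g⁻¹ := by rw [h1]
        _ = b * (g * a * g⁻¹) := by group
    let S : Set G := {y | ∃ g, y ∈ cj g E}
    let V : Subgroup G := closure S
    have hScomm : ∀ a ∈ S, ∀ b ∈ S, a * b = b * a := by
      rintro a ⟨g, ha⟩ b ⟨g', hb⟩
      exact hEE g g' a ha b hb
    have hVcomm : ∀ a ∈ V, ∀ b ∈ V, a * b = b * a := by
      intro a ha b hb
      have j := Subgroup.isMulCommutative_closure hScomm
      have := j.is_comm.comm (⟨a, ha⟩ : closure S) ⟨b, hb⟩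
      exact congrArg Subtype.val this
    have hVn : V.Normal := by
      refine ⟨fun v hv g => ?_⟩
      have h1 : V ≤ V.comap (MulAut.conj g).toMonoidHom := by
        change closure S ≤ _
        rw [closure_le]
        rintro s ⟨g', hs⟩
        refine subset_closure ⟨g * g', ?_⟩
        rw [mem_cj] at hs ⊢
        have : (g * g')⁻¹ * ((MulAut.conj g).toMonoidHom s) * (g * g') = g'⁻¹ * s * g' := by
          change (g * g')⁻¹ * (g * s * g⁻¹) * (g * g') = _
          group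
        rw [this]; exact hs
      exact h1 hv
    have hVM : V ≤ M := by
      change closure S ≤ _
      rw [closure_le]
      rintro _ ⟨g, ⟨e, he, rfl⟩⟩
      exact hM.conj_mem e (hEM he) g
    have hVq : ∀ v ∈ V, v ^ q = 1 := by
      intro v hv
      refine Subgroup.closure_induction (p := fun y _ => y ^ q = 1) ?_ (one_pow _) ?_ ?_ hv
      · rintro _ ⟨g, ⟨e, he, rfl⟩⟩
        change (g * e * g⁻¹) ^ q = 1
        rw [conj_pow, he.2, mul_one, mul_inv_cancel]
      · intro a b ha hb ha' hb'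
        have : Commute a b := hVcomm a ha b hb
        rw [this.mul_pow, ha', hb', one_mul]
      · intro a _ ha'
        rw [inv_pow, ha', inv_one]
    have hVf : Finite (V ⊓ (Y ⊓ M) : Subgroup G) := by
      refine finite_of_exp' ?_ hq.pos ?_ (hK.of_le inf_le_right).dcc
      · rintro ⟨a, ha⟩ ⟨b, hb⟩
        exact Subtype.ext (hVcomm a ha.1 b hb.1)
      · rintro ⟨a, ha⟩
        exact Subtype.ext (hVq a ha.1)
    have hVbot := hgen V hVn hVM hVf
    apply he1
    have h5 : d ^ m ∈ V := subset_closure ⟨1, by rw [mem_cj]; simpa using hdE⟩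
    rw [hVbot] at h5
    exact h5

end Run7.h806
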