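import Pool.Agent.Run7.h806.PGen

set_option autoImplicit false

namespace Run7.h806

open Subgroup
open scoped commutatorElement

universe u v

variable {p : ℕ} {G : Type u} [Group G] {Q : Type v} [Group Q]

theorem finite_commutatorSet_of_center (h : (Subgroup.center G).FiniteIndex) :
    Finite (commutatorSet G) := by
  let F : (G ⧸ Subgroup.center G) × (G ⧸ Subgroup.center G) → G :=
    fun c => ⁅c.1.out, c.2.out⁆
  have h1 : (Set.range F).Finite := Set.finite_range F
  refine h1.subset ?_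
  rintro _ ⟨a, b, rfl⟩
  refine ⟨((a : G ⧸ Subgroup.center G), (b : G ⧸ Subgroup.center G)), ?_⟩
  obtain ⟨⟨y, hy⟩, hy'⟩ := QuotientGroup.mk_out_eq_mul (Subgroup.center G) a
  obtain ⟨⟨z, hz⟩, hz'⟩ := QuotientGroup.mk_out_eq_mul (Subgroup.center G) b
  simp only [F]
  rw [hy', hz']
  simp only
  rw [commutatorElement_def, commutatorElement_def]
  have hy1 : ∀ g : G, y * g = g * y := fun g => ((Subgroup.mem_center_iff.mp hy) g).symm
  have hz1 : ∀ g : G, z * g = g * z := fun g => ((Subgroup.mem_center_iff.mp hz) g).symm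
  calc a * y * (b * z) * (a * y)⁻¹ * (b * z)⁻¹
      = a * (y * (b * z)) * y⁻¹ * a⁻¹ * z⁻¹ * b⁻¹ := by group
    _ = a * ((b * z) * y) * y⁻¹ * a⁻¹ * z⁻¹ * b⁻¹ := by rw [hy1]
    _ = a * b * (z * a⁻¹) * z⁻¹ * b⁻¹ := by group
    _ = a * b * (a⁻¹ * z) * z⁻¹ * b⁻¹ := by rw [hz1]
    _ = a * b * a⁻¹ * b⁻¹ := by group

theorem pelt_abelianization (hgen : PP p (⊤ : Subgroup G) = ⊤) (a : Abelianization G) :
    PElt p a := by
  let S : Subgroup (Abelianization G) :=
    { carrier := {a | PElt p a}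
      one_mem' := PElt.one
      mul_mem' := fun ha hb => ha.mul_comm hb (mul_comm _ _)
      inv_mem' := fun ha => ha.inv }
  have h1 : (⊤ : Subgroup G) ≤ S.comap Abelianization.of := by
    rw [← hgen, PP, closure_le]
    rintro g ⟨-, hg⟩
    exact hg.map _
  obtain ⟨g, rfl⟩ := QuotientGroup.mk_surjective a
  exact h1 (Subgroup.mem_top g)

theorem finite_of_central (hp : p.Prime) (hgen : PP p (⊤ : Subgroup G) = ⊤)
    (ht : ∀ g : G, IsOfFinOrder g) (Z : Subgroup G) (hZc : Z ≤ Subgroup.center G)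
    (hZf : Z.FiniteIndex) (hZp : ∀ z ∈ Z, PElt p z → z = 1) : Finite G := by
  have h1 : (Subgroup.center G).FiniteIndex := finiteIndex_of_le hZc
  have h2 := finite_commutatorSet_of_center h1
  have h3 : Finite (_root_.commutator G) := inferInstance
  have h4 : Z ≤ _root_.commutator G := by
    intro z hz
    have h5 := pelt_abelianization (p := p) hgen (Abelianization.of z)
    obtain ⟨z', hz', h6, h7⟩ := lift_pelt hp Abelianization.of (ht z) h5
    have h8 : z' ∈ Z := by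
      have : zpowers z ≤ Z := by rw [zpowers_le]; exact hz
      exact this hz'
    rw [hZp z' h8 h6, map_one] at h7
    exact (QuotientGroup.eq_one_iff z).mp h7.symm
  have h5 : Finite Z := Finite.of_injective (Subgroup.inclusion h4) (Subgroup.inclusion_injective h4)
  have h6 : Finite (G ⧸ Z) := inferInstance
  exact Finite.of_equiv _ (Subgroup.groupEquivQuotientProdSubgroup (s := Z)).symm

theorem VCh.sup (ht : ∀ g : G, IsOfFinOrder g) {A B N : Subgroup G} (hAN : A ≤ N) (hBN : B ≤ N)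
    (hA : ∀ n ∈ N, ∀ a ∈ A, n * a * n⁻¹ ∈ A) (h1 : VCh A) (h2 : VCh B) :
    VCh (A ⊔ B : Subgroup G) := by
  have hSN : A ⊔ B ≤ N := sup_le hAN hBN
  have hn : (A.subgroupOf (A ⊔ B)).Normal := by
    refine ⟨?_⟩
    rintro ⟨a, ha⟩ ha' ⟨g, hg⟩
    exact hA g (hSN hg) a ha'
  have h3 : VCh (A.subgroupOf (A ⊔ B)) :=
    h1.of_injective ((A ⊔ B).subtype.subgroupComap A) (by
      intro a b hab
      have := congrArg Subtype.val hab
      exact Subtype.ext (Subtype.ext this))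
  refine VCh.ext (tors_sub ht _) (A.subgroupOf (A ⊔ B)) h3 ?_
  let φ : B →* (A ⊔ B : Subgroup G) ⧸ (A.subgroupOf (A ⊔ B)) :=
    (QuotientGroup.mk' _).comp (Subgroup.inclusion (le_sup_right : B ≤ A ⊔ B))
  refine h2.of_surjective φ ?_
  rw [← MonoidHom.range_eq_top, eq_top_iff]
  rintro x -
  obtain ⟨y, rfl⟩ := QuotientGroup.mk_surjective x
  let R : Subgroup G := (φ.range.comap (QuotientGroup.mk' (A.subgroupOf (A ⊔ B)))).map
    (A ⊔ B : Subgroup G).subtype
  have hR : A ⊔ B ≤ R := by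
    refine sup_le ?_ ?_
    · intro a ha
      refine ⟨⟨a, (le_sup_left : A ≤ A ⊔ B) ha⟩, ?_, rfl⟩
      have : QuotientGroup.mk' (A.subgroupOf (A ⊔ B))
          ⟨a, (le_sup_left : A ≤ A ⊔ B) ha⟩ = 1 := (QuotientGroup.eq_one_iff _).mpr ha
      change QuotientGroup.mk' (A.subgroupOf (A ⊔ B)) _ ∈ φ.range
      rw [this]
      exact φ.range.one_mem
    · intro b hb
      exact ⟨⟨b, (le_sup_right : B ≤ A ⊔ B) hb⟩, ⟨⟨b, hb⟩, rfl⟩, rfl⟩
  obtain ⟨z, hz, hzy⟩ := hR y.2
  have : z = y := Subtype.ext hzy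
  rw [this] at hz
  exact hz

theorem VCh.sSup (ht : ∀ g : G, IsOfFinOrder g) {N : Subgroup G} (𝒦 : Set (Subgroup G))
    (hfin : 𝒦.Finite) (h1 : ∀ K ∈ 𝒦, K ≤ N) (h2 : ∀ K ∈ 𝒦, ∀ n ∈ N, ∀ a ∈ K, n * a * n⁻¹ ∈ K)
    (h3 : ∀ K ∈ 𝒦, VCh K) : VCh (sSup 𝒦 : Subgroup G) := by
  induction 𝒦, hfin using Set.Finite.induction_on with
  | empty =>
    rw [sSup_empty]
    exact VCh.of_finite
  | @insert A s has hs ih =>
    rw [sSup_insert]
    refine VCh.sup ht (N := N) (h1 A (Set.mem_insert _ _))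
      (sSup_le fun K hK => h1 K (Set.mem_insert_of_mem _ hK)) (h2 A (Set.mem_insert _ _))
      (h3 A (Set.mem_insert _ _)) ?_
    exact ih (fun K hK => h1 K (Set.mem_insert_of_mem _ hK))
      (fun K hK => h2 K (Set.mem_insert_of_mem _ hK))
      (fun K hK => h3 K (Set.mem_insert_of_mem _ hK))

theorem PP_top_coe (X : Subgroup G) (hX : PP p X = X) : PP p (⊤ : Subgroup X) = ⊤ := by
  apply Subgroup.map_injective X.subtype_injective
  rw [PP_map_subtype, ← MonoidHom.range_eq_map, X.range_subtype, hX]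

theorem lemB (hp : p.Prime) (ht : ∀ g : G, IsOfFinOrder g) (N : Subgroup G) [hN : N.Normal]
    (hNf : N.FiniteIndex) (hNp : ∀ g ∈ N, PElt p g → g = 1)
    (h : ∀ x : G, PElt p x → VCh (PP p (N ⊔ zpowers x))) : VCh (PP p (⊤ : Subgroup G)) := by
  let 𝒦 : Set (Subgroup G) := {K | ∃ x, PElt p x ∧ K = PP p (N ⊔ zpowers x) ⊓ N}
  have hcoset : ∀ x y : G, (x : G ⧸ N) = y → N ⊔ zpowers x ≤ N ⊔ zpowers y := by
    intro x y hxy
    refine sup_le le_sup_left ?_
    rw [zpowers_le]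
    have h1 : x⁻¹ * y ∈ N := QuotientGroup.eq.mp hxy
    have h2 : x = y * (x⁻¹ * y)⁻¹ := by group
    rw [h2]
    exact (N ⊔ zpowers y).mul_mem ((le_sup_right : zpowers y ≤ N ⊔ zpowers y) (mem_zpowers y))
      ((le_sup_left : N ≤ N ⊔ zpowers y) (N.inv_mem h1))
  have hfin : 𝒦.Finite := by
    have h1 : (Set.range fun c : G ⧸ N => PP p (N ⊔ zpowers c.out) ⊓ N).Finite :=
      Set.finite_range _
    refine h1.subset ?_
    rintro K ⟨x, hx, rfl⟩
    refine ⟨(x : G ⧸ N), ?_⟩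
    have h2 : N ⊔ zpowers (x : G ⧸ N).out = N ⊔ zpowers x :=
      le_antisymm (hcoset _ _ (QuotientGroup.out_eq' _)) (hcoset _ _ (QuotientGroup.out_eq' _).symm)
    simp only [h2]
  have hnorm : ∀ K ∈ 𝒦, ∀ n ∈ N, ∀ a ∈ K, n * a * n⁻¹ ∈ K := by
    rintro K ⟨x, hx, rfl⟩ n hn a ⟨ha1, ha2⟩
    refine ⟨PP_conj_mem (fun h hh => ?_) ha1, hN.conj_mem a ha2 n⟩
    have hn' : n ∈ N ⊔ zpowers x := (le_sup_left : N ≤ _) hn
    exact (N ⊔ zpowers x).mul_mem ((N ⊔ zpowers x).mul_mem hn' hh) ((N ⊔ zpowers x).inv_mem hn')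
  have hV : VCh (sSup 𝒦 : Subgroup G) := by
    refine VCh.sSup ht (N := N) 𝒦 hfin ?_ hnorm ?_
    · rintro K ⟨x, hx, rfl⟩
      exact inf_le_right
    · rintro K ⟨x, hx, rfl⟩
      exact (h x hx).of_le inf_le_left
  set M : Subgroup G := sSup 𝒦 with hM
  have hMn : M.Normal := by
    refine ⟨fun m hm g => ?_⟩
    have h1 : M ≤ M.comap (MulAut.conj g).toMonoidHom := by
      refine sSup_le ?_
      rintro K ⟨x, hx, rfl⟩ k ⟨hk1, hk2⟩
      have h2 : PP p (N ⊔ zpowers (g * x * g⁻¹)) ⊓ N ≤ M := le_sSup ⟨_, hx.conj g, rfl⟩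
      apply h2
      refine ⟨?_, hN.conj_mem k hk2 g⟩
      have h3 : PP p (N ⊔ zpowers x) ≤
          (PP p (N ⊔ zpowers (g * x * g⁻¹))).comap (MulAut.conj g).toMonoidHom := by
        rw [PP, closure_le]
        rintro s ⟨hs1, hs2⟩
        refine mem_PP ?_ (hs2.conj g)
        have h4 : N ⊔ zpowers x ≤ (N ⊔ zpowers (g * x * g⁻¹)).comap
            (MulAut.conj g).toMonoidHom := by
          refine sup_le ?_ ?_
          · intro n hn
            exact (le_sup_left : N ≤ _) (hN.conj_mem n hn g)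
          · rw [zpowers_le]
            exact (le_sup_right : zpowers (g * x * g⁻¹) ≤ _) (mem_zpowers _)
        exact h4 hs1
      exact h3 hk1
    exact h1 hm
  have hcomm : ∀ x, PElt p x → ∀ n ∈ N, x * n * x⁻¹ * n⁻¹ ∈ M := by
    intro x hx n hn
    have h1 : PP p (N ⊔ zpowers x) ⊓ N ≤ M := le_sSup ⟨x, hx, rfl⟩
    apply h1
    refine ⟨?_, N.mul_mem (hN.conj_mem n hn x) (N.inv_mem hn)⟩
    have hx' : x ∈ N ⊔ zpowers x := (le_sup_right : zpowers x ≤ _) (mem_zpowers x)
    have hn' : n ∈ N ⊔ zpowers x := (le_sup_left : N ≤ _) hn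
    have h2 : n * x⁻¹ * n⁻¹ ∈ PP p (N ⊔ zpowers x) :=
      mem_PP ((N ⊔ zpowers x).mul_mem ((N ⊔ zpowers x).mul_mem hn' ((N ⊔ zpowers x).inv_mem hx'))
        ((N ⊔ zpowers x).inv_mem hn')) (hx.inv.conj n)
    have h3 := mul_mem (mem_PP hx' hx) h2
    have h4 : x * n * x⁻¹ * n⁻¹ = x * (n * x⁻¹ * n⁻¹) := by group
    rw [h4]
    exact h3
  -- the quotient
  let π := QuotientGroup.mk' M
  have hπ : Function.Surjective π := QuotientGroup.mk'_surjective M
  have htQ : ∀ g : G ⧸ M, IsOfFinOrder g := tors_surj ht π hπ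
  let P' : Subgroup (G ⧸ M) := PP p ⊤
  have hP' : (PP p (⊤ : Subgroup G)).map π = P' := by
    rw [PP_map hp ht, Subgroup.map_top_of_surjective π hπ]
  let N' : Subgroup (G ⧸ M) := N.map π
  have hfinP : Finite P' := by
    refine finite_of_central hp (PP_top_coe P' (PP_idem _)) (tors_sub htQ P')
      (N'.subgroupOf P') ?_ ?_ ?_
    · rintro ⟨z, hz⟩ hz'
      rw [Subgroup.mem_center_iff]
      rintro ⟨y, hy⟩
      ext
      change y * z = z * y
      obtain ⟨n, hn, rfl⟩ := hz'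
      have h1 : P' ≤ Subgroup.centralizer {π n} := by
        change PP p ⊤ ≤ _
        rw [PP, closure_le]
        rintro g ⟨-, hg⟩
        obtain ⟨g0, rfl⟩ := hπ g
        obtain ⟨g1, -, h2, h3⟩ := lift_pelt hp π (ht g0) hg
        rw [← h3]
        rw [SetLike.mem_coe, Subgroup.mem_centralizer_singleton_iff]
        have h4 := hcomm g1 h2 n hn
        have h5 : π (g1 * n * g1⁻¹ * n⁻¹) = 1 := (QuotientGroup.eq_one_iff _).mpr h4
        rw [map_mul, map_mul, map_mul, map_inv, map_inv] at h5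
        have h6 := congrArg (fun t => t * π n * π g1) h5
        simpa using h6
      have h2 := h1 hy
      rw [Subgroup.mem_centralizer_singleton_iff] at h2
      exact h2
    · have h1 : N'.FiniteIndex := finiteIndex_map_of_surjective π hπ N hNf
      exact finiteIndex_comap P'.subtype N' h1
    · rintro ⟨z, hz⟩ hz' hzp
      obtain ⟨n, hn, hnz⟩ := hz'
      have h1 : PElt p (π n) := by
        rw [hnz]; exact hzp.map P'.subtype
      obtain ⟨n', hn', h2, h3⟩ := lift_pelt hp π (ht n) h1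
      have h4 : n' ∈ N := by
        have : zpowers n ≤ N := by rw [zpowers_le]; exact hn
        exact this hn'
      rw [hNp n' h4 h2, map_one] at h3
      ext
      rw [hnz] at h3
      exact h3.symm
  let P : Subgroup G := PP p ⊤
  let f : P →* G ⧸ M := π.comp P.subtype
  have hr : f.range = P' := by
    rw [MonoidHom.range_comp, P.range_subtype]
    exact hP'
  have hfr : Finite f.range := by rw [hr]; exact hfinP
  have hk : f.ker.FiniteIndex := inferInstance
  refine VCh.of_finiteIndex f.ker hk ?_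
  have hkM : f.ker = M.subgroupOf P := by
    ext y
    rw [MonoidHom.mem_ker]
    exact QuotientGroup.eq_one_iff (N := M) (y : G)
  rw [hkM]
  exact hV.of_injective (P.subtype.subgroupComap M) (by
      intro a b hab
      have := congrArg Subtype.val hab
      exact Subtype.ext (Subtype.ext this))

end Run7.h806
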