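import Pool.Agent.Run7.h806.LemB

set_option autoImplicit false

namespace Run7.h806

open Subgroup

universe u v

/-- A minimal configuration: a torsion group with the `p`-minimal condition, generated by its
`p`-elements, not Chernikov, all of whose proper subgroups generated by `p`-elements are
Chernikov, with a normal subgroup `N` of finite index without nontrivial `p`-elements. -/
structure MinCE (p : ℕ) (G : Type u) [Group G] (N : Subgroup G) : Prop where
  tors : ∀ g : G, IsOfFinOrder g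
  pm : PMin p G
  gen : PP p (⊤ : Subgroup G) = ⊤
  nch : ¬ VCh G
  mini : ∀ Y : Subgroup G, PP p Y = Y → Y ≠ ⊤ → VCh Y
  nrm : N.Normal
  fi : N.FiniteIndex
  pp : ∀ g ∈ N, PElt p g → g = 1

variable {p : ℕ} {G : Type u} [Group G]

theorem VCh.top_iff : VCh (⊤ : Subgroup G) ↔ VCh G :=
  ⟨fun h => h.of_injective (Subgroup.topEquiv (G := G)).symm.toMonoidHom
    (Subgroup.topEquiv (G := G)).symm.injective, fun h => h.sub _⟩

theorem VCh.map_iff (X : Subgroup G) (Y : Subgroup X) : VCh (Y.map X.subtype) ↔ VCh Y :=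
  ⟨fun h => h.of_injective (Y.equivMapOfInjective X.subtype X.subtype_injective).toMonoidHom
    (Y.equivMapOfInjective X.subtype X.subtype_injective).injective,
   fun h => h.of_injective (Y.equivMapOfInjective X.subtype X.subtype_injective).symm.toMonoidHom
    (Y.equivMapOfInjective X.subtype X.subtype_injective).symm.injective⟩

theorem exists_minCE (ht : ∀ g : G, IsOfFinOrder g) (hpm : PMin p G) (N : Subgroup G)
    (hN : N.Normal) (hNf : N.FiniteIndex) (hNp : ∀ g ∈ N, PElt p g → g = 1)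
    (h : ¬ VCh (PP p (⊤ : Subgroup G))) :
    ∃ X : Subgroup G, MinCE p X (N.subgroupOf X) := by
  obtain ⟨X, hX1, hX2, hX3⟩ := hpm.exists_minimal (fun Y => ¬ VCh Y) ⟨_, PP_idem _, h⟩
  refine ⟨X, tors_sub ht X, hpm.of_injective X.subtype X.subtype_injective, PP_top_coe X hX1, hX2,
    ?_, inferInstance, finiteIndex_comap _ _ hNf, ?_⟩
  · intro Y hY hne
    by_contra hnv
    apply hne
    have h1 : PP p (Y.map X.subtype) = Y.map X.subtype := by rw [← PP_map_subtype, hY]
    have h2 := hX3 _ h1 (fun hv => hnv ((VCh.map_iff X Y).mp hv)) (by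
      rintro _ ⟨y, -, rfl⟩; exact y.2)
    apply Subgroup.map_injective X.subtype_injective
    rw [h2, ← MonoidHom.range_eq_map, X.range_subtype]
  · rintro ⟨g, hg⟩ hg' hgp
    exact Subtype.ext (hNp g hg' (hgp.map X.subtype))

theorem mem_normalizer_of_finOrder {L : Subgroup G} {x : G} (hx : IsOfFinOrder x)
    (h : ∀ l ∈ L, x * l * x⁻¹ ∈ L) : x ∈ Subgroup.normalizer (L : Set G) := by
  have hpow : ∀ n : ℕ, ∀ l ∈ L, x ^ n * l * (x ^ n)⁻¹ ∈ L := by
    intro n
    induction n with
    | zero => intro l hl; simpa using hl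
    | succ n ih =>
      intro l hl
      have := h _ (ih l hl)
      have e : x ^ (n + 1) * l * (x ^ (n + 1))⁻¹ = x * (x ^ n * l * (x ^ n)⁻¹) * x⁻¹ := by
        rw [pow_succ']; group
      rw [e]; exact this
  obtain ⟨n, hn, hxn⟩ := isOfFinOrder_iff_pow_eq_one.mp hx
  rw [Subgroup.mem_normalizer_iff]
  intro l
  refine ⟨h l, fun hl => ?_⟩
  obtain ⟨m, rfl⟩ : ∃ m, n = m + 1 := ⟨n - 1, by omega⟩
  have h1 := hpow m _ hl
  have e : x ^ m * (x * l * x⁻¹) * (x ^ m)⁻¹ = x ^ (m + 1) * l * (x ^ (m + 1))⁻¹ := by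
    rw [pow_succ]; group
  rw [e, hxn] at h1
  simpa using h1

theorem le_of_sup_zpowers {N L : Subgroup G} (hNp : ∀ g ∈ N, PElt p g → g = 1) (hLN : L ≤ N)
    {x : G} (hxt : IsOfFinOrder x) (hx : PElt p x) (h : ∀ l ∈ L, x * l * x⁻¹ ∈ L) :
    (L ⊔ zpowers x) ⊓ N ≤ L := by
  have h1 : zpowers x ≤ Subgroup.normalizer (L : Set G) := by
    rw [zpowers_le]; exact mem_normalizer_of_finOrder hxt h
  have h2 := Subgroup.coe_mul_of_left_le_normalizer_right (zpowers x) L h1
  rintro g ⟨hg, hgN⟩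
  have hg' : g ∈ ((zpowers x ⊔ L : Subgroup G) : Set G) := by
    rw [sup_comm] at hg; exact hg
  rw [h2] at hg'
  obtain ⟨_, ⟨i, rfl⟩, l, hl, rfl⟩ := hg'
  simp only at hgN ⊢
  have h3 : x ^ i ∈ N := by
    have := N.mul_mem hgN (N.inv_mem (hLN hl))
    rwa [mul_inv_cancel_right] at this
  rw [hNp _ h3 (hx.zpow i), one_mul]
  exact hl

theorem MinCE.exists_gen {N : Subgroup G} (hp : p.Prime) (h : MinCE p G N) (M : Subgroup G)
    [M.Normal] (hf : M.FiniteIndex) (hMp : ∀ g ∈ M, PElt p g → g = 1) :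
    ∃ x, PElt p x ∧ M ⊔ zpowers x = ⊤ := by
  by_contra hcon
  rw [not_exists] at hcon
  apply h.nch
  have h1 : VCh (PP p (⊤ : Subgroup G)) := by
    refine lemB hp h.tors M hf hMp ?_
    intro x hx
    refine h.mini _ (PP_idem _) ?_
    intro he
    refine hcon x ⟨hx, ?_⟩
    rw [eq_top_iff, ← he]
    exact PP_le _
  rw [h.gen] at h1
  exact VCh.top_iff.mp h1

theorem MinCE.fperf {N : Subgroup G} (hp : p.Prime) (h : MinCE p G N) : FPerf N := by
  intro H hH
  have h1 := finiteIndex_map_subtype N h.fi H hH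
  have h2 : (H.map N.subtype).normalCore ≤ N :=
    (normalCore_le _).trans (by rintro _ ⟨y, -, rfl⟩; exact y.2)
  obtain ⟨y, hy1, hy2⟩ := h.exists_gen hp (H.map N.subtype).normalCore inferInstance
    (fun g hg => h.pp g (h2 hg))
  have hnc : (H.map N.subtype).normalCore.Normal := inferInstance
  have h3 := le_of_sup_zpowers h.pp h2 (h.tors y) hy1 (fun l hl => hnc.conj_mem l hl y)
  rw [hy2, top_inf_eq] at h3
  rw [eq_top_iff]
  rintro ⟨n, hn⟩ -
  obtain ⟨m, hm, hmn⟩ := (normalCore_le _) (h3 hn)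
  have : m = ⟨n, hn⟩ := Subtype.ext hmn
  rw [← this]; exact hm

theorem MinCE.quot {N : Subgroup G} (hp : p.Prime) (h : MinCE p G N) (M : Subgroup G) [M.Normal]
    (hnv : ¬ VCh (G ⧸ M)) : MinCE p (G ⧸ M) (N.map (QuotientGroup.mk' M)) := by
  have hs := QuotientGroup.mk'_surjective M
  refine ⟨tors_surj h.tors _ hs, h.pm.of_surjective hp h.tors _ hs, ?_, hnv, ?_,
    h.nrm.map _ hs, finiteIndex_map_of_surjective _ hs N h.fi, ?_⟩
  · rw [← Subgroup.map_top_of_surjective _ hs, ← PP_map hp h.tors, h.gen]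
  · intro Y hY hne
    let Y' : Subgroup G := PP p (Y.comap (QuotientGroup.mk' M))
    have h1 : Y'.map (QuotientGroup.mk' M) = Y := by
      rw [PP_map hp h.tors, Subgroup.map_comap_eq_self_of_surjective hs, hY]
    have h2 : Y' ≠ ⊤ := by
      intro he
      apply hne
      rw [← h1, he, Subgroup.map_top_of_surjective _ hs]
    have h3 := h.mini Y' (PP_idem _) h2
    have h4 : ((QuotientGroup.mk' M).comp Y'.subtype).range = Y := by
      rw [MonoidHom.range_comp, Y'.range_subtype, h1]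
    have h5 := h3.of_surjective _ ((QuotientGroup.mk' M).comp Y'.subtype).rangeRestrict_surjective
    rw [h4] at h5
    exact h5
  · rintro _ ⟨n, hn, rfl⟩ hgp
    obtain ⟨n', hn', h2, h3⟩ := lift_pelt hp (QuotientGroup.mk' M) (h.tors n) hgp
    have h4 : n' ∈ N := by
      have : zpowers n ≤ N := by rw [zpowers_le]; exact hn
      exact this hn'
    rw [h.pp n' h4 h2, map_one] at h3
    exact h3.symm

end Run7.h806
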