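import Pool.Agent.Run7.h806.Cher

set_option autoImplicit false

namespace Run7.h806

open Subgroup

universe u v

/-- `p`-elements. -/
def PElt (p : ℕ) {G : Type u} [Group G] (g : G) : Prop := ∃ k : ℕ, g ^ (p ^ k) = 1

/-- The subgroup generated by the `p`-elements of `H`. -/
def PP (p : ℕ) {G : Type u} [Group G] (H : Subgroup G) : Subgroup G :=
  closure {g | g ∈ H ∧ PElt p g}

/-- The `p`-minimal condition. -/
def PMin (p : ℕ) (G : Type u) [Group G] : Prop :=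
  ¬ ∃ H : ℕ → Subgroup G, ∀ i : ℕ, H (i + 1) < H i ∧ ∃ g ∈ H i, g ∉ H (i + 1) ∧ PElt p g

section

variable {p : ℕ} {G : Type u} [Group G] {Q : Type v} [Group Q]

theorem PElt.one : PElt p (1 : G) := ⟨0, one_pow _⟩

theorem PElt.map {g : G} (h : PElt p g) (f : G →* Q) : PElt p (f g) := by
  obtain ⟨k, hk⟩ := h
  exact ⟨k, by rw [← map_pow, hk, map_one]⟩

theorem PElt.of_map {g : G} {f : G →* Q} (hf : Function.Injective f) (h : PElt p (f g)) :
    PElt p g := by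
  obtain ⟨k, hk⟩ := h
  exact ⟨k, hf (by rw [map_pow, hk, map_one])⟩

theorem PElt.conj {g : G} (h : PElt p g) (x : G) : PElt p (x * g * x⁻¹) := by
  obtain ⟨k, hk⟩ := h
  exact ⟨k, by rw [conj_pow, hk, mul_one, mul_inv_cancel]⟩

theorem PElt.inv {g : G} (h : PElt p g) : PElt p g⁻¹ := by
  obtain ⟨k, hk⟩ := h
  exact ⟨k, by rw [inv_pow, hk, inv_one]⟩

theorem PElt.pow {g : G} (h : PElt p g) (n : ℕ) : PElt p (g ^ n) := by
  obtain ⟨k, hk⟩ := h
  exact ⟨k, by rw [← pow_mul, mul_comm, pow_mul, hk, one_pow]⟩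

theorem PElt.zpow {g : G} (h : PElt p g) (n : ℤ) : PElt p (g ^ n) := by
  obtain ⟨k, hk⟩ := h
  exact ⟨k, by rw [← zpow_natCast, ← zpow_mul, mul_comm, zpow_mul, zpow_natCast, hk, one_zpow]⟩

theorem PElt.mul_comm {g h : G} (hg : PElt p g) (hh : PElt p h) (hc : g * h = h * g) :
    PElt p (g * h) := by
  obtain ⟨k, hk⟩ := hg
  obtain ⟨l, hl⟩ := hh
  refine ⟨k + l, ?_⟩
  have hc' : Commute g h := hc
  rw [hc'.mul_pow, pow_add, pow_mul, hk, one_pow, one_mul, Nat.mul_comm, pow_mul, hl, one_pow]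

theorem lift_pelt (hp : p.Prime) (f : G →* Q) {g : G} (hg : IsOfFinOrder g)
    (h : PElt p (f g)) : ∃ g' ∈ zpowers g, PElt p g' ∧ f g' = f g := by
  obtain ⟨k, hk⟩ := h
  have hn : orderOf g ≠ 0 := hg.orderOf_pos.ne'
  obtain ⟨a, m, hm, ham⟩ := Nat.exists_eq_pow_mul_and_not_dvd hn p hp.ne_one
  have hcop : Nat.Coprime m (p ^ k) :=
    Nat.Coprime.pow_right k ((Nat.Prime.coprime_iff_not_dvd hp).mpr hm).symm
  obtain ⟨s, hs1, hs2⟩ := Nat.chineseRemainder hcop 0 1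
  refine ⟨g ^ s, ⟨s, by simp⟩, ⟨a, ?_⟩, ?_⟩
  · rw [← pow_mul]
    have h1 : m ∣ s := (Nat.modEq_zero_iff_dvd).mp hs1
    have h2 : orderOf g ∣ s * p ^ a := by
      rw [ham, mul_comm]
      exact Nat.mul_dvd_mul_right h1 _
    exact orderOf_dvd_iff_pow_eq_one.mp h2
  · rw [map_pow]
    have h1 : orderOf (f g) ∣ p ^ k := orderOf_dvd_of_pow_eq_one hk
    have h2 : s ≡ 1 [MOD orderOf (f g)] := hs2.of_dvd h1
    have := pow_eq_pow_iff_modEq.mpr h2
    rw [this, pow_one]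

theorem PP_le (H : Subgroup G) : PP p H ≤ H := by
  rw [PP, closure_le]
  exact fun g hg => hg.1

theorem mem_PP {H : Subgroup G} {g : G} (h1 : g ∈ H) (h2 : PElt p g) : g ∈ PP p H :=
  subset_closure ⟨h1, h2⟩

theorem PP_mono {H K : Subgroup G} (h : H ≤ K) : PP p H ≤ PP p K :=
  closure_mono fun _ hg => ⟨h hg.1, hg.2⟩

theorem PP_idem (H : Subgroup G) : PP p (PP p H) = PP p H := by
  refine le_antisymm (PP_le _) ?_
  rw [PP, PP, closure_le]
  rintro g ⟨h1, h2⟩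
  exact subset_closure ⟨mem_PP h1 h2, h2⟩

theorem PP_closure (S : Set G) (hS : ∀ s ∈ S, PElt p s) : PP p (closure S) = closure S := by
  refine le_antisymm (PP_le _) ?_
  rw [closure_le]
  exact fun s hs => mem_PP (subset_closure hs) (hS s hs)

theorem PP_map (hp : p.Prime) (ht : ∀ g : G, IsOfFinOrder g) (f : G →* Q) (H : Subgroup G) :
    (PP p H).map f = PP p (H.map f) := by
  rw [PP, MonoidHom.map_closure, PP]
  congr 1
  ext y
  constructor
  · rintro ⟨x, ⟨hx1, hx2⟩, rfl⟩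
    exact ⟨⟨x, hx1, rfl⟩, hx2.map f⟩
  · rintro ⟨⟨x, hx, rfl⟩, h2⟩
    obtain ⟨x', hx', h3, h4⟩ := lift_pelt hp f (ht x) h2
    have : x' ∈ H := by
      have : zpowers x ≤ H := by rw [zpowers_le]; exact hx
      exact this hx'
    exact ⟨x', ⟨this, h3⟩, h4⟩

theorem PP_map_subtype {X : Subgroup G} (H : Subgroup X) :
    (PP p H).map X.subtype = PP p (H.map X.subtype) := by
  rw [PP, MonoidHom.map_closure, PP]
  congr 1
  ext y
  constructor
  · rintro ⟨x, ⟨hx1, hx2⟩, rfl⟩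
    exact ⟨⟨x, hx1, rfl⟩, hx2.map _⟩
  · rintro ⟨⟨x, hx, rfl⟩, h2⟩
    exact ⟨x, ⟨hx, h2.of_map X.subtype_injective⟩, rfl⟩

theorem PP_conj_mem {H : Subgroup G} {x : G} (hx : ∀ h ∈ H, x * h * x⁻¹ ∈ H) {g : G}
    (hg : g ∈ PP p H) : x * g * x⁻¹ ∈ PP p H := by
  have h1 : PP p H ≤ (PP p H).comap (MulAut.conj x).toMonoidHom := by
    rw [PP, closure_le]
    rintro s ⟨hs1, hs2⟩
    exact subset_closure ⟨hx s hs1, hs2.conj x⟩
  exact h1 hg

theorem PP_normal {H : Subgroup G} (hH : H.Normal) : (PP p H).Normal :=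
  ⟨fun _ hn g => PP_conj_mem (fun h hh => hH.conj_mem h hh g) hn⟩

theorem PMin.of_injective (h : PMin p G) (f : Q →* G) (hf : Function.Injective f) : PMin p Q := by
  rintro ⟨H, hH⟩
  refine h ⟨fun i => (H i).map f, fun i => ⟨?_, ?_⟩⟩
  · exact (Monotone.strictMono_of_injective (fun _ _ h => Subgroup.map_mono h)
      (Subgroup.map_injective hf)) (hH i).1
  · obtain ⟨g, hg, hg', hgp⟩ := (hH i).2
    refine ⟨f g, ⟨g, hg, rfl⟩, ?_, hgp.map f⟩
    rintro ⟨g', h1, h2⟩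
    rw [hf h2] at h1
    exact hg' h1

theorem PMin.of_surjective (hp : p.Prime) (ht : ∀ g : G, IsOfFinOrder g) (h : PMin p G)
    (f : G →* Q) (hf : Function.Surjective f) : PMin p Q := by
  rintro ⟨H, hH⟩
  refine h ⟨fun i => (H i).comap f, fun i => ⟨?_, ?_⟩⟩
  · exact (Monotone.strictMono_of_injective (fun _ _ h => Subgroup.comap_mono h)
      (Subgroup.comap_injective hf)) (hH i).1
  · obtain ⟨g, hg, hg', hgp⟩ := (hH i).2
    obtain ⟨x, rfl⟩ := hf g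
    obtain ⟨x', hx', h3, h4⟩ := lift_pelt hp f (ht x) hgp
    refine ⟨x', ?_, ?_, h3⟩
    · rw [mem_comap, h4]; exact hg
    · rw [mem_comap, h4]; exact hg'

theorem PMin.stab (h : PMin p G) (Y : ℕ → Subgroup G) (ha : ∀ i, Y (i + 1) ≤ Y i)
    (hY : ∀ i, PP p (Y i) = Y i) : ∃ i, Y i = Y (i + 1) := by
  by_contra hcon
  rw [not_exists] at hcon
  refine h ⟨Y, fun i => ⟨lt_of_le_of_ne (ha i) (fun e => hcon i e.symm), ?_⟩⟩
  by_contra hno
  refine hcon i (le_antisymm ?_ (ha i))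
  rw [← hY i, PP, closure_le]
  rintro g ⟨h1, h2⟩
  by_contra h3
  exact hno ⟨g, h1, h3, h2⟩

theorem PMin.exists_minimal (h : PMin p G) (P : Subgroup G → Prop)
    (hne : ∃ Y, PP p Y = Y ∧ P Y) :
    ∃ Y, PP p Y = Y ∧ P Y ∧ ∀ Z, PP p Z = Z → P Z → Z ≤ Y → Z = Y := by
  by_contra hcon
  have hstep : ∀ Y : {Y : Subgroup G // PP p Y = Y ∧ P Y},
      ∃ Z : {Y : Subgroup G // PP p Y = Y ∧ P Y}, Z.1 < Y.1 := by
    rintro ⟨Y, hY1, hY2⟩
    by_contra hno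
    refine hcon ⟨Y, hY1, hY2, fun Z hZ1 hZ2 hZ3 => ?_⟩
    by_contra hne
    exact hno ⟨⟨Z, hZ1, hZ2⟩, lt_of_le_of_ne hZ3 hne⟩
  choose next hnext using hstep
  obtain ⟨Y0, hY0⟩ := hne
  let Y : ℕ → {Y : Subgroup G // PP p Y = Y ∧ P Y} := fun n => Nat.rec ⟨Y0, hY0⟩ (fun _ Z => next Z) n
  obtain ⟨i, hi⟩ := h.stab (fun n => (Y n).1) (fun i => (hnext (Y i)).le) (fun i => (Y i).2.1)
  exact absurd hi (hnext (Y i)).ne'

end

end Run7.h806
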