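import Pool.Agent.Run7.h806.Final

set_option autoImplicit false

namespace Run7.h806

open Subgroup

universe u v

variable {p : ℕ} {G : Type u} [Group G]

theorem pprime_by_finite (hp : p.Prime) (ht : ∀ g : G, IsOfFinOrder g) (hpm : PMin p G)
    (N : Subgroup G) (hN : N.Normal) (hNf : N.FiniteIndex) (hNp : ∀ g ∈ N, PElt p g → g = 1) :
    VCh (PP p (⊤ : Subgroup G)) ∨ ∃ (S : Type u) (_ : Group S), Sec S G ∧ Bad p S := by
  by_cases h : VCh (PP p (⊤ : Subgroup G))
  · exact Or.inl h
  · right
    obtain ⟨X, hX⟩ := exists_minCE ht hpm N hN hNf hNp h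
    obtain ⟨S, hS, h1, h2⟩ := hX.exists_bad hp
    exact ⟨S, hS, Sec.of_injective X.subtype X.subtype_injective h1, h2⟩

theorem VCh.of_hom {P : Type u} [Group P] {Q : Type u} [Group Q] (ht : ∀ g : P, IsOfFinOrder g)
    (f : P →* Q) (h1 : VCh f.ker) (h2 : VCh f.range) : VCh P :=
  VCh.ext ht f.ker h1 (h2.of_injective (QuotientGroup.quotientKerEquivRange f).toMonoidHom
    (QuotientGroup.quotientKerEquivRange f).injective)

theorem series_step (hp : p.Prime) (ht : ∀ g : G, IsOfFinOrder g) (hpm : PMin p G)
    (K L : Subgroup G) (hle : K ≤ L) (hn : (K.subgroupOf L).Normal)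
    (hf : K.relIndex L ≠ 0 ∨ ∀ x ∈ L, ∀ k : ℕ, x ^ (p ^ k) ∈ K → x ∈ K)
    (hK : VCh (PP p K)) :
    VCh (PP p L) ∨ ∃ (S : Type u) (_ : Group S), Sec S G ∧ Bad p S := by
  rcases hf with hf | hf
  · let K' : Subgroup L := K.subgroupOf L
    have hK'f : K'.FiniteIndex := ⟨hf⟩
    let M : Subgroup L := PP p K'
    have hMn : M.Normal := PP_normal hn
    have hMV : VCh M := by
      rw [← VCh.map_iff, PP_map_subtype, Subgroup.map_subgroupOf_eq_of_le hle]
      exact hK
    have htL := tors_sub ht L
    have hpmL : PMin p L := hpm.of_injective L.subtype L.subtype_injective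
    let π := QuotientGroup.mk' M
    have hπ : Function.Surjective π := QuotientGroup.mk'_surjective M
    have htQ := tors_surj htL π hπ
    have hpmQ := hpmL.of_surjective hp htL π hπ
    have hN1 : (K'.map π).Normal := Subgroup.Normal.map hn π hπ
    have hN2 : (K'.map π).FiniteIndex := finiteIndex_map_of_surjective π hπ K' hK'f
    have hN3 : ∀ g ∈ K'.map π, PElt p g → g = 1 := by
      rintro _ ⟨k, hk, rfl⟩ hgp
      obtain ⟨k', hk', h2, h3⟩ := lift_pelt hp π (htL k) hgp
      have h4 : k' ∈ K' := by
        have : zpowers k ≤ K' := by rw [zpowers_le]; exact hk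
        exact this hk'
      rw [← h3]
      exact (QuotientGroup.eq_one_iff _).mpr (mem_PP h4 h2)
    rcases pprime_by_finite hp htQ hpmQ (K'.map π) hN1 hN2 hN3 with h | ⟨S, hS, h1, h2⟩
    · left
      let P : Subgroup L := PP p ⊤
      have hP : VCh P := by
        refine VCh.of_hom (tors_sub htL P) (π.comp P.subtype) ?_ ?_
        · have hk : (π.comp P.subtype).ker = M.subgroupOf P := by
            ext y
            rw [MonoidHom.mem_ker]
            exact QuotientGroup.eq_one_iff (N := M) (y : L)
          rw [hk]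
          exact hMV.of_injective (P.subtype.subgroupComap M) (by
            intro a b hab
            have := congrArg Subtype.val hab
            exact Subtype.ext (Subtype.ext this))
        · have hr : (π.comp P.subtype).range = PP p ⊤ := by
            rw [MonoidHom.range_comp, P.range_subtype, PP_map hp htL,
              Subgroup.map_top_of_surjective π hπ]
          rw [hr]
          exact h
      rw [← VCh.map_iff, PP_map_subtype, ← MonoidHom.range_eq_map, L.range_subtype] at hP
      exact hP
    · right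
      exact ⟨S, hS, Sec.of_injective L.subtype L.subtype_injective (Sec.of_surjective π hπ h1), h2⟩
  · left
    have h1 : PP p L ≤ PP p K := by
      rw [PP, closure_le]
      rintro g ⟨hg1, k, hk⟩
      exact mem_PP (hf g hg1 k (by rw [hk]; exact K.one_mem)) ⟨k, hk⟩
    exact hK.of_le h1

theorem series_main (hp : p.Prime) (ht : ∀ g : G, IsOfFinOrder g) (hpm : PMin p G)
    (n : ℕ) (H : ℕ → Subgroup G) (h0 : H 0 = ⊥) (hn : H n = ⊤)
    (hs : ∀ i < n, H i ≤ H (i + 1) ∧ ((H i).subgroupOf (H (i + 1))).Normal ∧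
      ((H i).relIndex (H (i + 1)) ≠ 0 ∨
        ∀ x ∈ H (i + 1), ∀ k : ℕ, x ^ (p ^ k) ∈ H i → x ∈ H i)) :
    VCh (PP p (⊤ : Subgroup G)) ∨ ∃ (S : Type u) (_ : Group S), Sec S G ∧ Bad p S := by
  have key : ∀ i, i ≤ n → VCh (PP p (H i)) ∨ ∃ (S : Type u) (_ : Group S), Sec S G ∧ Bad p S := by
    intro i
    induction i with
    | zero =>
      intro _
      left
      rw [h0]
      have h1 : PP p (⊥ : Subgroup G) ≤ ⊥ := PP_le _
      exact (VCh.of_finite (G := (⊥ : Subgroup G))).of_le h1
    | succ i ih =>
      intro hi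
      rcases ih (by omega) with h | h
      · obtain ⟨h1, h2, h3⟩ := hs i (by omega)
        exact series_step hp ht hpm _ _ h1 h2 h3 h
      · exact Or.inr h
  have := key n le_rfl
  rwa [hn] at this

end Run7.h806
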