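import Pool.Agent.Run7.h806.Key

set_option autoImplicit false

namespace Run7.h806

open Subgroup
open scoped Pointwise

universe u v

variable {p : ℕ} {G : Type u} [Group G]

/-- subgroup of `N` normalised by `N`. -/
def NN (N B : Subgroup G) : Prop := B ≤ N ∧ ∀ n ∈ N, ∀ b ∈ B, n * b * n⁻¹ ∈ B

theorem NN.cj {N B : Subgroup G} [hN : N.Normal] (h : NN N B) (g : G) : NN N (cj g B) := by
  refine ⟨?_, ?_⟩
  · rintro _ ⟨b, hb, rfl⟩
    exact hN.conj_mem b (h.1 hb) g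
  · intro n hn y hy
    rw [mem_cj] at hy ⊢
    have h1 := h.2 (g⁻¹ * n * g) (by simpa using hN.conj_mem n hn g⁻¹) _ hy
    have e : g⁻¹ * (n * y * n⁻¹) * g = g⁻¹ * n * g * (g⁻¹ * y * g) * (g⁻¹ * n * g)⁻¹ := by group
    rw [e]; exact h1

theorem NN.inf {N A B : Subgroup G} (hA : NN N A) (hB : NN N B) : NN N (A ⊓ B) :=
  ⟨inf_le_left.trans hA.1, fun n hn b hb => ⟨hA.2 n hn b hb.1, hB.2 n hn b hb.2⟩⟩

/-- `x`-invariant subgroups of `N` normalised by `N` are normal. -/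
theorem normal_of_NN {N B : Subgroup G} (ht : ∀ g : G, IsOfFinOrder g) (h : NN N B) {x : G}
    (hxN : N ⊔ zpowers x = ⊤) (hx : ∀ b ∈ B, x * b * x⁻¹ ∈ B) : B.Normal := by
  have h1 : (⊤ : Subgroup G) ≤ Subgroup.normalizer (B : Set G) := by
    rw [← hxN]
    refine sup_le ?_ ?_
    · intro n hn
      exact mem_normalizer_of_finOrder (ht n) (h.2 n hn)
    · rw [zpowers_le]
      exact mem_normalizer_of_finOrder (ht x) hx
  refine ⟨fun b hb g => ?_⟩
  exact (Subgroup.mem_normalizer_iff.mp (h1 (Subgroup.mem_top g)) b).mp hb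

theorem MinCE.N_ne_top {N : Subgroup G} (h : MinCE p G N) : N ≠ ⊤ := by
  intro he
  have h1 : PP p (⊤ : Subgroup G) ≤ ⊥ := by
    rw [PP, closure_le]
    rintro g ⟨-, hg⟩
    exact h.pp g (by rw [he]; trivial) hg
  rw [h.gen] at h1
  apply h.ne_bot
  rw [eq_bot_iff]
  exact le_top.trans h1

/-- The `p`-th power of `x` centralises `N`. -/
theorem MinCE.pow_central {N : Subgroup G} (hp : p.Prime) (h : MinCE p G N)
    (hZ : ∀ c ∈ N, (∀ n ∈ N, c * n = n * c) → c = 1) {x : G} (hx : PElt p x)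
    (hxN : N ⊔ zpowers x = ⊤) : ∀ n ∈ N, x ^ p * n = n * x ^ p := by
  have hN := h.nrm
  have hne : N ⊔ zpowers (x ^ p) ≠ ⊤ := by
    intro he
    have h1 : x ∈ ((N ⊔ zpowers (x ^ p) : Subgroup G) : Set G) := by rw [he]; trivial
    rw [Subgroup.normal_mul] at h1
    obtain ⟨n, hn, _, ⟨i, rfl⟩, hnx⟩ := h1
    simp only at hnx
    have h2 : n = x ^ (1 - (p : ℤ) * i) := by
      rw [zpow_sub, zpow_one, zpow_mul, zpow_natCast]
      exact eq_mul_inv_of_mul_eq hnx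
    have h3 : n = 1 := h.pp n hn (by rw [h2]; exact hx.zpow _)
    have h4 : x = x ^ ((p : ℤ) * i) := by
      rw [h3, one_mul] at hnx
      rw [zpow_mul, zpow_natCast]
      exact hnx.symm
    have h5 : ∀ j : ℕ, x = x ^ (((p : ℤ) * i) ^ j) := by
      intro j
      induction j with
      | zero => simp
      | succ j ih =>
        rw [pow_succ, zpow_mul, ← ih]
        exact h4
    obtain ⟨k, hk⟩ := hx
    have h6 : x = 1 := by
      rw [h5 k, mul_pow, zpow_mul]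
      have : x ^ ((p : ℤ) ^ k) = 1 := by
        rw [← hk, ← zpow_natCast]; push_cast; rfl
      rw [this, one_zpow]
    rw [h6, Subgroup.zpowers_one_eq_bot, sup_bot_eq] at hxN
    exact h.N_ne_top hxN
  have hY : VCh (PP p (N ⊔ zpowers (x ^ p))) := by
    refine h.mini _ (PP_idem _) fun he => hne ?_
    rw [eq_top_iff, ← he]; exact PP_le _
  set Y := PP p (N ⊔ zpowers (x ^ p)) with hYdef
  have hYx : ∀ y ∈ Y, x * y * x⁻¹ ∈ Y := by
    intro y hy
    refine PP_conj_mem (fun z hz => ?_) hy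
    have h1 : N ⊔ zpowers (x ^ p) ≤ (N ⊔ zpowers (x ^ p)).comap (MulAut.conj x).toMonoidHom := by
      refine sup_le ?_ ?_
      · intro n hn
        exact (le_sup_left : N ≤ N ⊔ zpowers (x ^ p)) (hN.conj_mem n hn x)
      · rw [zpowers_le]
        have : (MulAut.conj x).toMonoidHom (x ^ p) = x ^ p := by
          change x * x ^ p * x⁻¹ = x ^ p
          rw [← pow_succ', pow_succ, mul_inv_cancel_right]
        rw [mem_comap, this]
        exact (le_sup_right : zpowers (x ^ p) ≤ N ⊔ zpowers (x ^ p)) (mem_zpowers _)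
    exact h1 hz
  have hYN : ∀ n ∈ N, ∀ y ∈ Y, n * y * n⁻¹ ∈ Y := fun n hn y hy =>
    PP_conj_mem (fun z hz => by
      have hn' := (le_sup_left : N ≤ N ⊔ zpowers (x ^ p)) hn
      exact Subgroup.mul_mem _ (Subgroup.mul_mem _ hn' hz) (Subgroup.inv_mem _ hn')) hy
  have hKNN : NN N (Y ⊓ N) := ⟨inf_le_right, fun n hn b hb => ⟨hYN n hn b hb.1,
    N.mul_mem (N.mul_mem hn hb.2) (N.inv_mem hn)⟩⟩
  have hKn : (Y ⊓ N : Subgroup G).Normal := normal_of_NN h.tors hKNN hxN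
    (fun b hb => ⟨hYx b hb.1, hN.conj_mem b hb.2 x⟩)
  have hKV : VCh (Y ⊓ N : Subgroup G) := hY.of_le inf_le_left
  have hKne : Y ⊓ N ≠ N := by
    intro he
    rw [he] at hKV
    exact h.nch (VCh.of_finiteIndex N h.fi hKV)
  have hK := h.no_normal hp hZ (Y ⊓ N) inf_le_right hKne
  intro n hn
  have hy : x ^ p ∈ Y := mem_PP ((le_sup_right : zpowers (x ^ p) ≤ N ⊔ zpowers (x ^ p))
    (mem_zpowers _)) (hx.pow p)
  have h1 : x ^ p * (n * (x ^ p)⁻¹ * n⁻¹) ∈ Y ⊓ N := by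
    refine ⟨Y.mul_mem hy (hYN n hn _ (Y.inv_mem hy)), ?_⟩
    have e : x ^ p * (n * (x ^ p)⁻¹ * n⁻¹) = (x ^ p * n * (x ^ p)⁻¹) * n⁻¹ := by group
    rw [e]
    exact N.mul_mem (hN.conj_mem n hn _) (N.inv_mem hn)
  rw [hK, Subgroup.mem_bot] at h1
  have h2 := congrArg (fun t => t * n * x ^ p) h1
  simpa [mul_assoc] using h2

/-- Intersections of consecutive conjugates. -/
def tk (x : G) (B : Subgroup G) (k : ℕ) : Subgroup G := ⨅ i : Fin (k + 1), cj (x ^ (i : ℕ)) B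

theorem mem_tk {x : G} {B : Subgroup G} {k : ℕ} {y : G} :
    y ∈ tk x B k ↔ ∀ i, i ≤ k → (x ^ i)⁻¹ * y * x ^ i ∈ B := by
  rw [tk, Subgroup.mem_iInf]
  constructor
  · intro h i hi
    have := h ⟨i, by omega⟩
    rwa [mem_cj] at this
  · rintro h ⟨i, hi⟩
    rw [mem_cj]
    exact h i (by omega)

theorem tk_zero (x : G) (B : Subgroup G) : tk x B 0 = B := by
  ext y
  rw [mem_tk]
  constructor
  · intro h; simpa using h 0 le_rfl
  · intro h i hi
    have : i = 0 := by omega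
    subst this
    simpa using h

theorem tk_succ (x : G) (B : Subgroup G) (k : ℕ) : tk x B k ⊓ cj x (tk x B k) = tk x B (k + 1) := by
  ext y
  rw [Subgroup.mem_inf, mem_cj, mem_tk, mem_tk, mem_tk]
  constructor
  · rintro ⟨h1, h2⟩ i hi
    rcases Nat.eq_zero_or_pos i with h0 | h0
    · exact h1 i (by omega)
    · obtain ⟨j, rfl⟩ : ∃ j, i = j + 1 := ⟨i - 1, by omega⟩
      have := h2 j (by omega)
      have e : (x ^ j)⁻¹ * (x⁻¹ * y * x) * x ^ j = (x ^ (j + 1))⁻¹ * y * x ^ (j + 1) := by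
        rw [pow_succ']; group
      rwa [e] at this
  · intro h
    refine ⟨fun i hi => h i (by omega), fun i hi => ?_⟩
    have := h (i + 1) (by omega)
    have e : (x ^ i)⁻¹ * (x⁻¹ * y * x) * x ^ i = (x ^ (i + 1))⁻¹ * y * x ^ (i + 1) := by
      rw [pow_succ']; group
    rwa [e]

theorem tk_le (x : G) (B : Subgroup G) (k : ℕ) : tk x B k ≤ B := by
  intro y hy
  simpa using mem_tk.mp hy 0 (Nat.zero_le _)

theorem tk_NN {N B : Subgroup G} [N.Normal] (h : NN N B) (x : G) (k : ℕ) : NN N (tk x B k) := by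
  refine ⟨(tk_le x B k).trans h.1, ?_⟩
  intro n hn b hb
  rw [mem_tk] at hb ⊢
  intro i hi
  have h1 := (h.cj (x ^ i)).2 n hn b (by rw [mem_cj]; exact hb i hi)
  rwa [mem_cj] at h1

/-- One step: make `B` meet its `x ^ j`-conjugate trivially. -/
theorem MinCE.ti_step {N : Subgroup G} (hp : p.Prime) (h : MinCE p G N)
    (hZ : ∀ c ∈ N, (∀ n ∈ N, c * n = n * c) → c = 1) {x : G} (hx : PElt p x)
    (hxN : N ⊔ zpowers x = ⊤) {B : Subgroup G} (hB : NN N B) (hB0 : B ≠ ⊥) (hB1 : B ≠ N)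
    {j : ℕ} (hj0 : 0 < j) (hjp : j < p) :
    ∃ B' ≤ B, NN N B' ∧ B' ≠ ⊥ ∧ B' ⊓ cj (x ^ j) B' = ⊥ := by
  have hN := h.nrm
  have hpc := h.pow_central hp hZ hx hxN
  have hpc' : ∀ b : ℕ, ∀ n ∈ N, (x ^ p) ^ b * n * ((x ^ p) ^ b)⁻¹ = n := by
    intro b n hn
    have h1 : Commute (x ^ p) n := hpc n hn
    have h2 : Commute ((x ^ p) ^ b) n := h1.pow_left b
    rw [h2.eq, mul_inv_cancel_right]
  have hex : ∃ k, tk (x ^ j) B k = ⊥ := by
    refine ⟨p - 1, ?_⟩
    have hinv : ∀ y ∈ tk (x ^ j) B (p - 1), x ^ j * y * (x ^ j)⁻¹ ∈ tk (x ^ j) B (p - 1) := by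
      intro y hy
      have hyN : y ∈ N := hB.1 (tk_le _ _ _ hy)
      rw [mem_tk] at hy ⊢
      intro i hi
      rcases Nat.eq_zero_or_pos i with h0 | h0
      · subst h0
        have h1 := hy (p - 1) le_rfl
        have e : ((x ^ j) ^ 0)⁻¹ * (x ^ j * y * (x ^ j)⁻¹) * (x ^ j) ^ 0 =
            ((x ^ j) ^ (p - 1))⁻¹ * y * (x ^ j) ^ (p - 1) := by
          have h2 : (x ^ j) ^ p * y * ((x ^ j) ^ p)⁻¹ = y := by
            have := hpc' j y hyN
            rwa [← pow_mul, mul_comm p j, pow_mul] at this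
          have h3 : (x ^ j) ^ p = (x ^ j) ^ (p - 1) * x ^ j := by
            rw [← pow_succ, Nat.sub_add_cancel hp.one_le]
          have h4 : x ^ j * y * (x ^ j)⁻¹ = ((x ^ j) ^ (p - 1))⁻¹ *
              ((x ^ j) ^ p * y * ((x ^ j) ^ p)⁻¹) * (x ^ j) ^ (p - 1) := by
            rw [h3]; group
          rw [pow_zero, inv_one, one_mul, mul_one, h4, h2]
        rw [e]; exact h1
      · obtain ⟨m, rfl⟩ : ∃ m, i = m + 1 := ⟨i - 1, by omega⟩
        have h1 := hy m (by omega)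
        have e : ((x ^ j) ^ (m + 1))⁻¹ * (x ^ j * y * (x ^ j)⁻¹) * (x ^ j) ^ (m + 1) =
            ((x ^ j) ^ m)⁻¹ * y * (x ^ j) ^ m := by
          rw [pow_succ']; group
        rw [e]; exact h1
    have hinv2 : ∀ a : ℕ, ∀ y ∈ tk (x ^ j) B (p - 1),
        (x ^ j) ^ a * y * ((x ^ j) ^ a)⁻¹ ∈ tk (x ^ j) B (p - 1) := by
      intro a
      induction a with
      | zero => intro y hy; simpa using hy
      | succ a ih =>
        intro y hy
        have := hinv _ (ih y hy)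
        have e : (x ^ j) ^ (a + 1) * y * ((x ^ j) ^ (a + 1))⁻¹ =
            x ^ j * ((x ^ j) ^ a * y * ((x ^ j) ^ a)⁻¹) * (x ^ j)⁻¹ := by
          rw [pow_succ']; group
        rw [e]; exact this
    -- a multiple of `j` congruent to `1`
    obtain ⟨a, b, hab⟩ : ∃ a b : ℕ, j * a = 1 + p * b := by
      have hcop : Nat.Coprime j p :=
        ((Nat.Prime.coprime_iff_not_dvd hp).mpr (fun hd => by
          have := Nat.le_of_dvd hj0 hd
          omega)).symm
      obtain ⟨a, ha⟩ := Nat.exists_mul_mod_eq_one_of_coprime hcop hp.one_lt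
      refine ⟨a, (j * a) / p, ?_⟩
      have := Nat.mod_add_div (j * a) p
      omega
    have hinvx : ∀ y ∈ tk (x ^ j) B (p - 1), x * y * x⁻¹ ∈ tk (x ^ j) B (p - 1) := by
      intro y hy
      have hyN : y ∈ N := hB.1 (tk_le _ _ _ hy)
      have h1 := hinv2 a y hy
      have e : (x ^ j) ^ a * y * ((x ^ j) ^ a)⁻¹ = x * y * x⁻¹ := by
        rw [← pow_mul, hab, pow_add, pow_one, pow_mul]
        have h2 := hpc' b y hyN
        calc x * (x ^ p) ^ b * y * (x * (x ^ p) ^ b)⁻¹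
            = x * ((x ^ p) ^ b * y * ((x ^ p) ^ b)⁻¹) * x⁻¹ := by group
          _ = x * y * x⁻¹ := by rw [h2]
      rwa [e] at h1
    have hn : (tk (x ^ j) B (p - 1)).Normal :=
      normal_of_NN h.tors (tk_NN hB (x ^ j) (p - 1)) hxN hinvx
    refine h.no_normal hp hZ _ ((tk_le _ _ _).trans hB.1) ?_
    intro he
    exact hB1 (le_antisymm hB.1 (by rw [← he]; exact tk_le _ _ _))
  classical
  have hfind := Nat.find_spec hex
  have hmin : ∀ {m : ℕ}, m < Nat.find hex → ¬ tk (x ^ j) B m = ⊥ := fun hm => Nat.find_min hex hm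
  have hpos : 0 < Nat.find hex := by
    rcases Nat.eq_zero_or_pos (Nat.find hex) with h0 | h0
    · rw [h0, tk_zero] at hfind
      exact absurd hfind hB0
    · exact h0
  obtain ⟨k, hk⟩ : ∃ k, Nat.find hex = k + 1 := ⟨Nat.find hex - 1, by omega⟩
  refine ⟨tk (x ^ j) B k, tk_le _ _ _, tk_NN hB _ _, hmin (by omega), ?_⟩
  rw [tk_succ, ← hk]
  exact hfind

theorem cj_mono {g : G} {A B : Subgroup G} (h : A ≤ B) : cj g A ≤ cj g B := Subgroup.map_mono h

theorem MinCE.ti {N : Subgroup G} (hp : p.Prime) (h : MinCE p G N)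
    (hZ : ∀ c ∈ N, (∀ n ∈ N, c * n = n * c) → c = 1) {x : G} (hx : PElt p x)
    (hxN : N ⊔ zpowers x = ⊤) {R : Subgroup G} (hR : NN N R) (hR0 : R ≠ ⊥) (hR1 : R ≠ N) :
    ∃ B, NN N B ∧ B ≠ ⊥ ∧ ∀ i, 0 < i → i < p → B ⊓ cj (x ^ i) B = ⊥ := by
  have key : ∀ j, j < p → ∃ B, NN N B ∧ B ≠ ⊥ ∧ B ≠ N ∧
      ∀ i, 0 < i → i ≤ j → B ⊓ cj (x ^ i) B = ⊥ := by
    intro j
    induction j with
    | zero => intro _; exact ⟨R, hR, hR0, hR1, fun i hi hi' => by omega⟩
    | succ j ih =>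
      intro hj
      obtain ⟨B, hB, hB0, hB1, hBi⟩ := ih (by omega)
      obtain ⟨B', hle, hB', hB'0, hB'i⟩ := h.ti_step hp hZ hx hxN hB hB0 hB1 (Nat.succ_pos j) hj
      refine ⟨B', hB', hB'0, ?_, ?_⟩
      · rintro rfl
        exact hB1 (le_antisymm hB.1 hle)
      · intro i hi hij
        rcases Nat.lt_or_ge i (j + 1) with h1 | h1
        · rw [eq_bot_iff, ← hBi i hi (by omega)]
          exact inf_le_inf hle (cj_mono hle)
        · have : i = j + 1 := by omega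
          subst this
          exact hB'i
  obtain ⟨B, hB, hB0, -, hBi⟩ := key (p - 1) (by have := hp.pos; omega)
  exact ⟨B, hB, hB0, fun i hi hip => hBi i hi (by omega)⟩

end Run7.h806
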